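import Mathlib
import Pool.Agent.H302R2.Alperin

set_option autoImplicit false
set_option linter.unusedSectionVars false

/-! # p-nilpotent groups and the criterion of Frobenius -/

namespace Pool.Agent.R691.PN

open Subgroup Pool.Agent.H302R2

/-- `G` has a normal Hall `p'`-subgroup. -/
def PNilp (p : ℕ) (G : Type*) [Group G] : Prop :=
  ∃ N : Subgroup G, N.Normal ∧ ¬ p ∣ Nat.card N ∧ ∃ k : ℕ, N.index = p ^ k

section basic
variable {p : ℕ} [hp : Fact p.Prime] {G : Type*} [Group G] [Finite G]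

omit [Finite G] in
lemma mem_of_pow {N : Subgroup G} {g : G} {n : ℕ} (h : g ^ n ∈ N)
    (hc : n.Coprime (orderOf g)) : g ∈ N := by
  obtain ⟨m, hm⟩ := exists_pow_eq_self_of_coprime hc
  rw [← hm]
  exact N.pow_mem h m

lemma mem_of_index {N : Subgroup G} [N.Normal] {k : ℕ} (hN : N.index = p ^ k) {g : G}
    (hg : ¬ p ∣ orderOf g) : g ∈ N := by
  have h1 : g ^ (p ^ k) ∈ N := by rw [← hN]; exact N.pow_index_mem g
  exact mem_of_pow h1 (((Nat.Prime.coprime_iff_not_dvd hp.out).2 hg).pow_left k)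

/-- decomposition into the `p`-part and the `p'`-part -/
lemma decomp (p : ℕ) [hp : Fact p.Prime] (g : G) : ∃ k l : ℕ, g ^ k * g ^ l = g ∧
    (∃ e, (g ^ k) ^ (p ^ e) = 1) ∧ ¬ p ∣ orderOf (g ^ l) := by
  have hn : orderOf g ≠ 0 := (orderOf_pos g).ne'
  obtain ⟨e, m, hm, hem⟩ := Nat.exists_eq_pow_mul_and_not_dvd hn p hp.out.ne_one
  have hcop : Nat.Coprime (p ^ e) m := ((Nat.Prime.coprime_iff_not_dvd hp.out).2 hm).pow_left e
  obtain ⟨k, hk1, hk2⟩ := Nat.chineseRemainder hcop 1 0
  obtain ⟨l, hl1, hl2⟩ := Nat.chineseRemainder hcop 0 1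
  refine ⟨k, l, ?_, ⟨e, ?_⟩, ?_⟩
  · rw [← pow_add]
    have h1 : k + l ≡ 1 [MOD orderOf g] := by
      rw [hem]
      refine (Nat.modEq_and_modEq_iff_modEq_mul hcop).1 ⟨?_, ?_⟩
      · simpa using hk1.add hl1
      · simpa using hk2.add hl2
    have := pow_eq_pow_iff_modEq.2 h1
    rwa [pow_one] at this
  · rw [← pow_mul]
    apply orderOf_dvd_iff_pow_eq_one.1
    rw [hem, mul_comm k]
    exact Nat.mul_dvd_mul_left _ ((Nat.modEq_zero_iff_dvd).1 hk2)
  · intro h
    have h2 : orderOf (g ^ l) ∣ m := by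
      apply orderOf_dvd_iff_pow_eq_one.2
      rw [← pow_mul]
      apply orderOf_dvd_iff_pow_eq_one.1
      rw [hem]
      exact Nat.mul_dvd_mul_right ((Nat.modEq_zero_iff_dvd).1 hl1) m
    exact hm (h.trans h2)

/-- a `p`-element which is a `p'`-element is trivial -/
lemma eq_one_of_both {g : G} {e : ℕ} (h : g ^ p ^ e = 1) {n : ℕ} (hn : g ^ n = 1)
    (hpn : ¬ p ∣ n) : g = 1 := by
  have h1 : orderOf g ∣ p ^ e := orderOf_dvd_of_pow_eq_one h
  have h2 : orderOf g ∣ n := orderOf_dvd_of_pow_eq_one hn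
  have h3 : Nat.Coprime (p ^ e) n := ((Nat.Prime.coprime_iff_not_dvd hp.out).2 hpn).pow_left e
  exact orderOf_eq_one_iff.1 (Nat.eq_one_of_dvd_coprimes h3 h1 h2)

omit [Finite G] in
/-- `PNilp` passes to groups with an injection -/
lemma PNilp.of_injective {K : Type*} [Group K] (f : K →* G) (hf : Function.Injective f)
    (h : PNilp p G) : PNilp p K := by
  obtain ⟨N, hN, hc, k, hk⟩ := h
  refine ⟨N.comap f, inferInstance, ?_, ?_⟩
  · intro hd
    exact hc (hd.trans (N.card_comap_dvd_of_injective f hf))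
  · have h1 : (N.comap f).index ∣ p ^ k := by
      rw [← hk, Subgroup.index_comap]
      exact Subgroup.relIndex_dvd_index_of_normal _ _
    obtain ⟨j, -, hj⟩ := (Nat.dvd_prime_pow hp.out).1 h1
    exact ⟨j, hj⟩

omit [Finite G] in
lemma PNilp.sub {K : Subgroup G} (h : PNilp p G) : PNilp p K :=
  h.of_injective K.subtype K.subtype_injective

/-- in a `p`-nilpotent group, `p'`-elements normalizing a `p`-subgroup centralise it -/
lemma PNilp.comm (h : PNilp p G) {Q : Subgroup G} (hQ : IsPGroup p Q) {g : G}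
    (hg : g ∈ normalizer (Q : Set G)) (hgp : ¬ p ∣ orderOf g) {x : G} (hx : x ∈ Q) :
    g * x = x * g := by
  obtain ⟨N, hN, hc, k, hk⟩ := h
  have h1 : g ∈ N := mem_of_index hk hgp
  have h2 : g * x * g⁻¹ * x⁻¹ ∈ Q :=
    Q.mul_mem ((mem_normalizer_iff.1 hg x).1 hx) (Q.inv_mem hx)
  have h3 : g * x * g⁻¹ * x⁻¹ ∈ N := by
    have : g * x * g⁻¹ * x⁻¹ = g * (x * g⁻¹ * x⁻¹) := by group
    rw [this]
    exact N.mul_mem h1 (hN.conj_mem _ (N.inv_mem h1) x)
  obtain ⟨e, he⟩ := hQ ⟨_, h2⟩
  have he' : (g * x * g⁻¹ * x⁻¹) ^ p ^ e = 1 := by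
    have := congrArg Subtype.val he
    simpa using this
  have h4 : (g * x * g⁻¹ * x⁻¹) ^ Nat.card N = 1 := by
    have h5 : (⟨_, h3⟩ : N) ^ Nat.card N = 1 := pow_card_eq_one'
    exact congrArg Subtype.val h5
  have h5 := eq_one_of_both he' h4 hc
  rw [mul_inv_eq_one, mul_inv_eq_iff_eq_mul] at h5
  exact h5

/-- the subgroup generated by the `p'`-elements -/
def Op (p : ℕ) (G : Type*) [Group G] : Subgroup G := closure {g | ¬ p ∣ orderOf g}

instance Op_normal : (Op p G).Normal := by
  constructor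
  intro n hn g
  change MulAut.conj g n ∈ Op p G
  induction hn using closure_induction with
  | mem x hx =>
    apply Subgroup.subset_closure
    have : orderOf (MulAut.conj g x) = orderOf x :=
      orderOf_injective (MulAut.conj g).toMonoidHom (MulAut.conj g).injective x
    rw [Set.mem_ofPred_eq] at hx ⊢
    rwa [this]
  | one => rw [map_one]; exact one_mem _
  | mul x y _ _ h1 h2 => rw [map_mul]; exact mul_mem h1 h2
  | inv x _ h => rw [map_inv]; exact inv_mem h

lemma index_pow_of_forall {N : Subgroup G} [N.Normal] (h : ∀ g : G, ∃ e, g ^ p ^ e ∈ N) :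
    ∃ k, N.index = p ^ k := by
  have h1 : IsPGroup p (G ⧸ N) := by
    intro q
    obtain ⟨g, rfl⟩ := QuotientGroup.mk_surjective q
    obtain ⟨e, he⟩ := h g
    exact ⟨e, by rw [← QuotientGroup.mk_pow]; exact (QuotientGroup.eq_one_iff _).2 he⟩
  rw [IsPGroup.iff_card] at h1
  exact h1

lemma index_Op : ∃ k, (Op p G).index = p ^ k := by
  apply index_pow_of_forall
  intro g
  obtain ⟨k, l, h1, ⟨e, he⟩, h3⟩ := decomp p g
  refine ⟨e, ?_⟩
  have h4 : Commute (g ^ k) (g ^ l) := ((Commute.refl g).pow_left k).pow_right l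
  have h5 : g ^ p ^ e = (g ^ l) ^ p ^ e := by
    conv_lhs => rw [← h1]
    rw [h4.mul_pow, he, one_mul]
  rw [h5]
  exact pow_mem (Subgroup.subset_closure h3) _

/-- a subgroup containing a Sylow subgroup and all `p'`-elements is everything -/
lemma eq_top_of_sylow_le (T : Sylow p G) (S : Subgroup G) (hT : (T : Subgroup G) ≤ S)
    (h : ∀ g : G, ¬ p ∣ orderOf g → g ∈ S) : S = ⊤ := by
  have h1 : Op p G ≤ S := by
    rw [Op, closure_le]
    exact fun g hg => h g hg
  obtain ⟨k, hk⟩ := index_Op (p := p) (G := G)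
  have h2 : S.index ∣ p ^ k := by
    rw [← hk]; exact index_dvd_of_le h1
  have h3 : S.index ∣ (T : Subgroup G).index := index_dvd_of_le hT
  have h4 : Nat.Coprime (p ^ k) (T : Subgroup G).index :=
    ((Nat.Prime.coprime_iff_not_dvd hp.out).2 T.not_dvd_index).pow_left k
  exact index_eq_one.1 (Nat.eq_one_of_dvd_coprimes h4 h2 h3)

/-- version for subgroups -/
lemma le_of_full (P : Sylow p G) {Q : Subgroup G} (hQ : Full P Q) (S : Subgroup G)
    (h1 : (P : Subgroup G) ⊓ normalizer (Q : Set G) ≤ S)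
    (h : ∀ g ∈ normalizer (Q : Set G), ¬ p ∣ orderOf g → g ∈ S) :
    normalizer (Q : Set G) ≤ S := by
  set M := normalizer (Q : Set G) with hM
  obtain ⟨T⟩ : Nonempty (Sylow p M) := inferInstance
  have hR : IsPGroup p ((T : Subgroup M).map M.subtype) := T.isPGroup'.map _
  obtain ⟨n, hn, hn2⟩ := hQ _ hR (by
    rintro _ ⟨y, -, rfl⟩
    exact y.2)
  have hT : ((⟨n, hn⟩ : M) • T : Sylow p M) ≤ (S.subgroupOf M) := by
    intro y hy
    rw [mem_subgroupOf]
    apply h1
    refine ⟨?_, y.2⟩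
    rw [Sylow.coe_subgroup_smul] at hy
    obtain ⟨t, ht, rfl⟩ := hy
    exact hn2 _ ⟨t, ht, rfl⟩
  have h2 := eq_top_of_sylow_le _ (S.subgroupOf M) hT (by
    intro g hg
    rw [mem_subgroupOf]
    apply h g g.2
    rwa [Subgroup.orderOf_coe])
  intro x hx
  have : (⟨x, hx⟩ : M) ∈ S.subgroupOf M := by rw [h2]; exact mem_top _
  exact this

/-- the Frobenius condition -/
def Frob (p : ℕ) (G : Type*) [Group G] : Prop :=
  ∀ Q : Subgroup G, IsPGroup p Q → ∀ g ∈ normalizer (Q : Set G), ¬ p ∣ orderOf g →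
    ∀ x ∈ Q, g * x = x * g

lemma Frob.sub (h : Frob p G) (K : Subgroup G) : Frob p K := by
  intro Q hQ g hg hgp x hx
  have h1 := h (Q.map K.subtype) (hQ.map _) g (by
    rw [mem_normalizer_iff] at hg ⊢
    intro y
    constructor
    · rintro ⟨z, hz, rfl⟩
      exact ⟨g * z * g⁻¹, (hg z).1 hz, rfl⟩
    · rintro ⟨z, hz, hz2⟩
      refine ⟨g⁻¹ * z * g, ?_, ?_⟩
      · rw [SetLike.mem_coe, hg]
        have : g * (g⁻¹ * z * g) * g⁻¹ = z := by group
        rwa [this]
      · simp only [coe_subtype, coe_mul, coe_inv] at hz2 ⊢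
        rw [hz2]; group) (by rwa [Subgroup.orderOf_coe]) x ⟨x, hx, rfl⟩
  exact Subtype.ext h1

/-- a nontrivial `p`-group has a nontrivial linear character -/
lemma exists_linear_char {P : Type*} [Group P] [Finite P] [Nontrivial P] (hP : IsPGroup p P) :
    ∃ l : P →* ℂˣ, ∃ x : P, l x ≠ 1 := by
  have hnil : Group.IsNilpotent P := hP.isNilpotent
  have hsolv : Group.IsSolvable P := inferInstance
  have h1 : commutator P < ⊤ := Group.IsSolvable.commutator_lt_top_of_nontrivial P
  obtain ⟨x, -, hx⟩ := SetLike.exists_of_lt h1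
  have hx1 : (Abelianization.of x : Abelianization P) ≠ 1 := by
    intro h
    apply hx
    rw [← Abelianization.ker_of]
    exact h
  obtain ⟨φ, hφ⟩ := CommGroup.exists_apply_ne_one_of_hasEnoughRootsOfUnity
    (Abelianization P) ℂ hx1
  exact ⟨φ.comp Abelianization.of, x, hφ⟩

end basic

universe u

/-- The criterion of Frobenius. -/
theorem pnilp_of_frob {p : ℕ} [hp : Fact p.Prime] : ∀ (n : ℕ) (G : Type u) [Group G] [Finite G],
    Nat.card G = n → Frob p G → PNilp p G := by
  intro n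
  induction n using Nat.strong_induction_on with
  | _ n ih =>
  intro G _ _ hn hF
  obtain ⟨P⟩ : Nonempty (Sylow p G) := inferInstance
  by_cases hP : (P : Subgroup G) = ⊥
  · refine ⟨⊤, inferInstance, ?_, 0, by simp⟩
    intro hd
    have h1 := P.not_dvd_index
    rw [hP, index_bot] at h1
    rw [Nat.card_congr topEquiv.toEquiv] at hd
    exact h1 hd
  · classical
    have hnt : Nontrivial P := (nontrivial_iff_ne_bot _).2 hP
    obtain ⟨l, x0, hx0⟩ := exists_linear_char (p := p) P.isPGroup'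
    let f : G → ℂˣ := fun g => if h : g ∈ P then l ⟨g, h⟩ else 1
    have hf : ∀ g (h : g ∈ P), f g = l ⟨g, h⟩ := fun g h => dif_pos h
    have hmul : ∀ x ∈ P, ∀ y ∈ P, f (x * y) = f x * f y := by
      intro x hx y hy
      rw [hf x hx, hf y hy, hf (x * y) (mul_mem hx hy), ← map_mul]
      rfl
    have hloc : ∀ Q : Subgroup G, Q ≤ P → Full P Q → ∀ g ∈ normalizer (Q : Set G), ∀ x ∈ Q,
        f (g * x * g⁻¹) = f x := by
      intro Q hQP hfull
      let S : Subgroup G :=
        { carrier := {g | g ∈ normalizer (Q : Set G) ∧ ∀ x ∈ Q, f (g * x * g⁻¹) = f x}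
          one_mem' := ⟨one_mem _, fun x _ => by simp⟩
          mul_mem' := by
            rintro a b ⟨ha1, ha2⟩ ⟨hb1, hb2⟩
            refine ⟨mul_mem ha1 hb1, fun x hx => ?_⟩
            have : a * b * x * (a * b)⁻¹ = a * (b * x * b⁻¹) * a⁻¹ := by group
            rw [this, ha2 _ ((mem_normalizer_iff.1 hb1 x).1 hx), hb2 x hx]
          inv_mem' := by
            rintro a ⟨ha1, ha2⟩
            refine ⟨inv_mem ha1, fun x hx => ?_⟩
            have h1 := ha2 (a⁻¹ * x * a⁻¹⁻¹) ((mem_normalizer_iff.1 (inv_mem ha1) x).1 hx)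
            have : a * (a⁻¹ * x * a⁻¹⁻¹) * a⁻¹ = x := by group
            rw [this] at h1
            exact h1.symm }
      have hS : normalizer (Q : Set G) ≤ S := by
        apply le_of_full P hfull
        · rintro g ⟨hgP, hgN⟩
          refine ⟨hgN, fun x hx => ?_⟩
          rw [hmul _ (mul_mem hgP (hQP hx)) _ (inv_mem hgP), hmul _ hgP _ (hQP hx)]
          have h1 : f g * f g⁻¹ = 1 := by
            rw [← hmul _ hgP _ (inv_mem hgP), mul_inv_cancel, hf 1 (one_mem _)]
            exact map_one l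
          rw [mul_right_comm, h1, one_mul]
        · intro g hg hgp
          refine ⟨hg, fun x hx => ?_⟩
          rw [hF Q (P.isPGroup'.to_le hQP) g hg hgp x hx, mul_inv_cancel_right]
      intro g hg x hx
      exact (hS hg).2 x hx
    obtain ⟨φ, hφ1, hφ2⟩ := exists_transfer P f hmul
      (fun x hx g hg => stable_of_local P f hloc hx hg)
    have hK : φ.ker ≠ ⊤ := by
      intro htop
      have h1 : φ x0 = 1 := by
        have : (x0 : G) ∈ φ.ker := by rw [htop]; exact mem_top _
        exact this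
      have h2 : f x0 ^ (P : Subgroup G).index = 1 := by
        rw [← hφ1 x0 x0.2, h1]
      have h3 : f x0 ^ Nat.card P = 1 := by
        rw [hf x0 x0.2, ← map_pow]
        have : (⟨x0, x0.2⟩ : P) ^ Nat.card P = 1 := pow_card_eq_one'
        rw [this, map_one]
      have h4 : Nat.Coprime (Nat.card P) (P : Subgroup G).index := P.card_coprime_index
      have h5 : f x0 = 1 := by
        have ha := orderOf_dvd_of_pow_eq_one h2
        have hb := orderOf_dvd_of_pow_eq_one h3
        exact orderOf_eq_one_iff.1 (Nat.eq_one_of_dvd_coprimes h4 hb ha)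
      rw [hf x0 x0.2] at h5
      exact hx0 h5
    have hcard : Nat.card φ.ker < n := by
      rw [← hn]
      have h1 : Nat.card φ.ker ≤ Nat.card G := Subgroup.card_le_card_group _
      rcases h1.lt_or_eq with h | h
      · exact h
      · exact absurd (Subgroup.eq_top_of_card_eq _ h) hK
    obtain ⟨N, hN, hNc, k, hNk⟩ := ih _ hcard φ.ker rfl (hF.sub _)
    obtain ⟨j, hj⟩ : ∃ j, φ.ker.index = p ^ j := by
      obtain ⟨c, hc⟩ := P.isPGroup'.exists_card_eq
      apply index_pow_of_forall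
      intro g
      refine ⟨c, ?_⟩
      rw [MonoidHom.mem_ker, map_pow]
      have := hφ2 g
      rwa [hc] at this
    refine ⟨N.map φ.ker.subtype, ?_, ?_, k + j, ?_⟩
    · constructor
      rintro _ ⟨y, hy, rfl⟩ g
      have hyo : ¬ p ∣ orderOf y := by
        intro h
        apply hNc
        have h1 : orderOf (⟨y, hy⟩ : N) ∣ Nat.card N := orderOf_dvd_natCard _
        rw [← Subgroup.orderOf_coe] at h1
        exact h.trans h1
      have hyc : g * y * g⁻¹ ∈ φ.ker := (inferInstance : φ.ker.Normal).conj_mem _ y.2 g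
      refine ⟨⟨_, hyc⟩, ?_, rfl⟩
      have : ¬ p ∣ orderOf (⟨_, hyc⟩ : φ.ker) := by
        rw [← Subgroup.orderOf_coe]
        have h1 : orderOf (MulAut.conj g (y : G)) = orderOf (y : G) :=
          orderOf_injective (MulAut.conj g).toMonoidHom (MulAut.conj g).injective _
        have h2 : MulAut.conj g (y : G) = g * y * g⁻¹ := rfl
        rw [h2, Subgroup.orderOf_coe] at h1
        rw [h1]; exact hyo
      exact mem_of_index hNk this
    · rwa [← Nat.card_congr (N.equivMapOfInjective _ φ.ker.subtype_injective).toEquiv]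
    · rw [index_map_subtype, hNk, hj, pow_add]

end Pool.Agent.R691.PN
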