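import Mathlib
import Pool.Agent.R691.PN.Basic

set_option autoImplicit false
set_option linter.unusedSectionVars false

/-! # Quadratic action of a Sylow subgroup -/

namespace Pool.Agent.R691.PN

open Subgroup Pool.Agent.H302R2

section ring
variable {p : ℕ} [hp : Fact p.Prime] {R : Type*} [Ring R]

lemma comm_pow_aux {a n k : R} (hk : k = n * a - a * n) (hak : a * k = k * a) (i : ℕ) :
    a * (n * a ^ i - a ^ i * n) = (i : R) * (a ^ i * k) := by
  induction i with
  | zero => simp
  | succ i ih =>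
    have h1 : n * a ^ (i + 1) - a ^ (i + 1) * n
        = (n * a ^ i - a ^ i * n) * a + a ^ i * k := by
      rw [hk, pow_succ]; noncomm_ring
    have h2 : a ^ i * k * a = a ^ (i + 1) * k := by
      rw [pow_succ, mul_assoc, mul_assoc, hak]
    have h3 : a * (a ^ i * k) = a ^ (i + 1) * k := by
      rw [pow_succ', mul_assoc]
    rw [h1, mul_add, ← mul_assoc, ih, mul_assoc (i : R), h2, h3]
    push_cast
    rw [add_mul, one_mul]

lemma ring_comp (hp2 : p ≠ 2) (hR : (p : R) = 0) (x y a : R) (hxy : x * y = 1)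
    (hyx : y * x = 1)
    (hn : (x - 1) * (x - 1) = 0) (j : ℕ) (hj : ¬ p ∣ j) (ha : a ^ j = 1)
    (h1 : a * (x * a * y) = (x * a * y) * a) (h2 : a * (y * a * x) = (y * a * x) * a) :
    x * a = a * x := by
  set n := x - 1 with hndef
  have hx : x = 1 + n := by rw [hndef]; abel
  have hy : y = 1 - n := by
    have h3 : x * (1 - n) = 1 := by
      rw [hx, mul_sub, mul_one, add_mul, one_mul, hn]; abel
    calc y = y * (x * (1 - n)) := by rw [h3, mul_one]
      _ = 1 - n := by rw [← mul_assoc, hyx, one_mul]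
  set k := n * a - a * n with hk
  have h4 : x * a * y - y * a * x = 2 * k := by
    rw [hx, hy, hk]; noncomm_ring
  have h5 : a * (2 * k) = (2 * k) * a := by
    rw [← h4, mul_sub, sub_mul, h1, h2]
  obtain ⟨m, hm⟩ : ∃ m, p = 2 * m + 1 := by
    rcases hp.out.eq_two_or_odd' with h | h
    · exact absurd h hp2
    · exact h
  have h6 : ((m + 1 : ℕ) : R) * (2 * k) = k := by
    have : ((m + 1 : ℕ) : R) * (2 * k) = ((2 * m + 1 : ℕ) : R) * k + k := by
      push_cast; noncomm_ring
    rw [this, ← hm, hR, zero_mul, zero_add]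
  have h7 : a * k = k * a := by
    rw [← h6, ← mul_assoc, ← (Nat.cast_commute (m + 1) a).eq, mul_assoc, h5, ← mul_assoc]
  have h8 := comm_pow_aux hk h7 j
  rw [ha, mul_one, one_mul, sub_self, mul_zero, one_mul] at h8
  have hcop : Nat.Coprime j p := ((Nat.Prime.coprime_iff_not_dvd hp.out).2 hj).symm
  obtain ⟨u, -, hu⟩ := Nat.exists_mul_mod_eq_one_of_coprime hcop hp.out.one_lt
  have hu' : j * u = p * (j * u / p) + 1 := by
    have h := Nat.div_add_mod (j * u) p
    rw [hu] at h
    exact h.symm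
  have h9 : k = 0 := by
    have : ((j * u : ℕ) : R) * k = 0 := by
      rw [mul_comm j u]
      push_cast
      rw [mul_assoc, ← h8, mul_zero]
    rw [hu'] at this
    push_cast at this
    rwa [hR, zero_mul, zero_add, one_mul] at this
  have h10 : n * a = a * n := sub_eq_zero.1 h9
  rw [hx, add_mul, mul_add, h10, one_mul, mul_one]

end ring

section gamma
variable {p : ℕ} [hp : Fact p.Prime] {Γ : Type*} [Group Γ] [Finite Γ] {R : Type*} [Ring R]

theorem eq_top_of_quadratic (hp2 : p ≠ 2) (hR : (p : R) = 0) (ρ : Γ →* R)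
    (hρ : Function.Injective ρ) (P : Sylow p Γ)
    (h1 : ∀ s ∈ P, ∀ t ∈ P, (ρ s - 1) * (ρ t - 1) = 0)
    (h2 : normalizer ((P : Subgroup Γ) : Set Γ) ≤ P) : (P : Subgroup Γ) = ⊤ := by
  have hcomm : ∀ s ∈ P, ∀ t ∈ P, s * t = t * s := by
    intro s hs t ht
    apply hρ
    have e1 := h1 s hs t ht
    have e2 := h1 t ht s hs
    have f1 : ρ s * ρ t = ρ s + ρ t - 1 := by
      have : (ρ s - 1) * (ρ t - 1) = ρ s * ρ t - (ρ s + ρ t - 1) := by noncomm_ring
      rw [this] at e1
      exact sub_eq_zero.1 e1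
    have f2 : ρ t * ρ s = ρ s + ρ t - 1 := by
      have : (ρ t - 1) * (ρ s - 1) = ρ t * ρ s - (ρ s + ρ t - 1) := by noncomm_ring
      rw [this] at e2
      exact sub_eq_zero.1 e2
    rw [map_mul, map_mul, f1, f2]
  have hP : normalizer (P : Set Γ) ≤ centralizer (P : Set Γ) := by
    intro g hg
    rw [mem_centralizer_iff]
    intro t ht
    exact hcomm t ht g (h2 hg)
  set K := (MonoidHom.transferSylow P hP).ker with hK
  have hKP : IsComplement' K (P : Subgroup Γ) := MonoidHom.ker_transferSylow_isComplement' P hP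
  have hKp : ¬ p ∣ Nat.card K := MonoidHom.not_dvd_card_ker_transferSylow P hP
  by_contra hne
  have hKb : K ≠ ⊥ := by
    intro h
    rw [h] at hKP
    exact hne (isComplement'_bot_left.1 hKP)
  have hKc : Nat.card K ≠ 1 := fun h => hKb (Subgroup.card_eq_one.1 h)
  obtain ⟨q, hq, hqK⟩ := Nat.exists_prime_and_dvd hKc
  have : Fact q.Prime := ⟨hq⟩
  -- action of P on the Sylow q-subgroups of K
  let act : MulDistribMulAction P K := MulDistribMulAction.compHom K
    ((MulAut.conjNormal (H := K)).comp (P : Subgroup Γ).subtype)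
  have hndvd : ¬ p ∣ Nat.card (Sylow q K) := by
    obtain ⟨Q⟩ : Nonempty (Sylow q K) := inferInstance
    intro h
    exact hKp ((h.trans Q.card_dvd_index).trans (index_dvd_card _))
  obtain ⟨Q, hQ⟩ := P.isPGroup'.nonempty_fixed_point_of_prime_not_dvd_card (Sylow q K) hndvd
  have hQfix : ∀ s (hs : s ∈ P) (a : K), a ∈ Q → MulAut.conjNormal s a ∈ Q := by
    intro s hs a ha
    have e1 : (⟨s, hs⟩ : P) • Q = Q := hQ ⟨s, hs⟩
    have e2 := Subgroup.smul_mem_pointwise_smul a (⟨s, hs⟩ : P) (Q : Subgroup K) ha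
    rw [← Sylow.pointwise_smul_def, e1] at e2
    exact e2
  have hQnt : Nontrivial (Q : Subgroup K) := by
    rw [nontrivial_iff_ne_bot]
    exact Q.ne_bot_of_dvd_card hqK
  have hcent : Nontrivial (center (Q : Subgroup K)) := Q.isPGroup'.center_nontrivial
  obtain ⟨⟨a, hac⟩, hane⟩ := exists_ne (1 : center (Q : Subgroup K))
  have hane' : ((a : K) : Γ) ≠ 1 := by
    intro h
    apply hane
    apply Subtype.ext; apply Subtype.ext; apply Subtype.ext
    exact h
  set b : Γ := ((a : K) : Γ) with hb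
  have hbK : b ∈ K := (a : K).2
  have hbQ : ∀ c : K, c ∈ Q → b * c = c * b := by
    intro c hc
    have h3 := (mem_center_iff.1 hac) ⟨c, hc⟩
    have h4 := congrArg (fun z : (Q : Subgroup K) => ((z : K) : Γ)) h3
    exact h4.symm
  have hbord : ¬ p ∣ orderOf b := by
    intro h
    apply hKp
    have h3 : orderOf (⟨b, hbK⟩ : K) ∣ Nat.card K := orderOf_dvd_natCard _
    rw [← Subgroup.orderOf_coe] at h3
    exact h.trans h3
  have hbP : ∀ s ∈ P, s * b = b * s := by
    intro s hs
    apply hρ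
    rw [map_mul, map_mul]
    have h3 := hbQ _ (hQfix s hs a a.2)
    have h4 := hbQ _ (hQfix s⁻¹ (inv_mem hs) a a.2)
    rw [MulAut.conjNormal_apply] at h3 h4
    rw [inv_inv] at h4
    have h5 := congrArg ρ h3
    have h6 := congrArg ρ h4
    simp only [map_mul] at h5 h6
    refine ring_comp hp2 hR (ρ s) (ρ s⁻¹) (ρ b) ?_ ?_ (h1 s hs s hs) (orderOf b) hbord ?_ ?_ ?_
    · rw [← map_mul, mul_inv_cancel, map_one]
    · rw [← map_mul, inv_mul_cancel, map_one]
    · rw [← map_pow, pow_orderOf_eq_one, map_one]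
    · exact h5
    · exact h6
  have hbN : b ∈ normalizer ((P : Subgroup Γ) : Set Γ) := by
    rw [mem_normalizer_iff]
    intro s
    constructor
    · intro hs
      rw [← hbP s hs, mul_inv_cancel_right]
      exact hs
    · intro hs
      have h3 := hbP _ hs
      have h4 : b * s * b⁻¹ * b = b * s := by group
      rw [h4] at h3
      have h5 : s = b * s * b⁻¹ := by
        have := mul_left_cancel h3
        exact this
      rw [h5]; exact hs
  have hbP' : b ∈ (P : Subgroup Γ) := h2 hbN
  have hdisj := hKP.disjoint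
  rw [Subgroup.disjoint_def] at hdisj
  exact hane' (hdisj hbK hbP')

end gamma

end Pool.Agent.R691.PN
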