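import Mathlib
import Pool.Agent.R691.PN.Ring

set_option autoImplicit false
set_option linter.unusedSectionVars false

/-! # The action on a normal `p`-subgroup of exponent `p` -/

namespace Pool.Agent.R691.PN

open Subgroup Pool.Agent.H302R2

section frat
variable {p : ℕ} [hp : Fact p.Prime] {G : Type*} [Group G] [Finite G]

lemma mem_normalizer_of_conj_le {Q : Subgroup G} {x : G} (h : ∀ s ∈ Q, x * s * x⁻¹ ∈ Q) :
    x ∈ normalizer (Q : Set G) := by
  rw [mem_normalizer_iff_map_conj_eq]
  apply eq_of_le_of_card_ge
  · rintro _ ⟨y, hy, rfl⟩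
    exact h y hy
  · rw [← Nat.card_congr (Q.equivMapOfInjective _ (MulAut.conj x).injective).toEquiv]

/-- Frattini argument for images -/
lemma normalizer_image {Γ : Type*} [Group Γ] (f : G →* Γ) (hf : Function.Surjective f)
    (P : Sylow p G) {y : Γ}
    (hy : y ∈ normalizer (((P : Subgroup G).map f : Subgroup Γ) : Set Γ)) :
    ∃ s ∈ P, ∃ x ∈ normalizer ((P : Subgroup G) : Set G), y = f s * f x := by
  obtain ⟨x, rfl⟩ := hf y
  set M : Subgroup G := ((P : Subgroup G).map f).comap f with hM
  have hPM : (P : Subgroup G) ≤ M := le_comap_map _ _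
  have hxM : ((x • P : Sylow p G) : Subgroup G) ≤ M := by
    rw [Sylow.coe_subgroup_smul]
    rintro _ ⟨s, hs, rfl⟩
    rw [hM, mem_comap]
    have h1 : f s ∈ (P : Subgroup G).map f := ⟨s, hs, rfl⟩
    have h2 := (mem_normalizer_iff.1 hy (f s)).1 h1
    change f (x * s * x⁻¹) ∈ (P : Subgroup G).map f
    have h3 : f (x * s * x⁻¹) = f x * f s * (f x)⁻¹ := by
      rw [← map_inv, ← map_mul, ← map_mul]
    rw [h3]
    exact h2
  obtain ⟨m, hm⟩ := MulAction.exists_smul_eq M ((x • P).subtype hxM) (P.subtype hPM)
  have h1 : ∀ s ∈ P, (m * x) * s * ((m : G) * x)⁻¹ ∈ P := by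
    intro s hs
    have h2 : x * s * x⁻¹ ∈ (x • P : Sylow p G) := by
      have := Subgroup.smul_mem_pointwise_smul s (MulAut.conj x) (P : Subgroup G) hs
      exact this
    have h3 : (⟨x * s * x⁻¹, hxM h2⟩ : M) ∈ ((x • P).subtype hxM : Sylow p M) := h2
    have h4 := Subgroup.smul_mem_pointwise_smul _ (MulAut.conj m)
      (((x • P).subtype hxM : Sylow p M) : Subgroup M) h3
    rw [← Sylow.coe_subgroup_smul, hm] at h4
    have h5 : ((m * ⟨x * s * x⁻¹, hxM h2⟩ * m⁻¹ : M) : G) ∈ P := h4
    have h6 : ((m * ⟨x * s * x⁻¹, hxM h2⟩ * m⁻¹ : M) : G) = (m * x) * s * ((m : G) * x)⁻¹ := by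
      simp only [coe_mul, coe_inv]; group
    rwa [h6] at h5
  obtain ⟨s, hs, hs2⟩ : f m ∈ (P : Subgroup G).map f := m.2
  refine ⟨s⁻¹, inv_mem hs, m * x, mem_normalizer_of_conj_le h1, ?_⟩
  rw [map_mul, map_inv, hs2, inv_mul_cancel_left]

end frat

section rho
variable {G : Type*} [Group G]

/-- the conjugation action on the abelianization of a normal subgroup -/
noncomputable def rho (V : Subgroup G) [V.Normal] :
    G →* AddMonoid.End (Additive (Abelianization V)) where
  toFun g := MonoidHom.toAdditive
    (Abelianization.map (MulAut.conjNormal (H := V) g).toMonoidHom)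
  map_one' := by
    ext a
    induction a with
    | _ a =>
    obtain ⟨v, rfl⟩ := QuotientGroup.mk_surjective a
    rw [map_one]
    rfl
  map_mul' g h := by
    ext a
    induction a with
    | _ a =>
    obtain ⟨v, rfl⟩ := QuotientGroup.mk_surjective a
    rw [map_mul]
    rfl

lemma rho_apply (V : Subgroup G) [V.Normal] (g : G) (v : V) :
    rho V g (Additive.ofMul (Abelianization.of v))
      = Additive.ofMul (Abelianization.of (MulAut.conjNormal g v)) := rfl

end rho

section app
variable {p : ℕ} [hp : Fact p.Prime] {G : Type*} [Group G] [Finite G]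

theorem comm_mem_of_quadratic (hp2 : p ≠ 2) (P : Sylow p G)
    (hC : ∀ g ∈ normalizer ((P : Subgroup G) : Set G), ¬ p ∣ orderOf g → ∀ x ∈ P, g * x = x * g)
    (V : Subgroup G) [hV : V.Normal] (hVP : V ≤ P) (hexp : ∀ v ∈ V, v ^ p = 1)
    (hquad : ∀ v ∈ V, ∀ s ∈ P, ∀ t ∈ P, t * (s * v * s⁻¹ * v⁻¹) = (s * v * s⁻¹ * v⁻¹) * t)
    (g : G) (hg : ¬ p ∣ orderOf g) (v : V) :
    MulAut.conjNormal g v * v⁻¹ ∈ commutator V := by
  have hR : ((p : ℕ) : AddMonoid.End (Additive (Abelianization V))) = 0 := by
    ext a
    induction a with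
    | _ a =>
    obtain ⟨v, rfl⟩ := QuotientGroup.mk_surjective a
    have h1 : ((p : ℕ) : AddMonoid.End (Additive (Abelianization V)))
        (Additive.ofMul (Abelianization.of v)) = Additive.ofMul (Abelianization.of (v ^ p)) := by
      rw [map_pow]
      simp
    have h2 : v ^ p = 1 := Subtype.ext (hexp v v.2)
    rw [h2, map_one] at h1
    exact h1
  set ρ' := (rho V).toHomUnits with hρ'
  set f := ρ'.rangeRestrict with hf
  have hfs : Function.Surjective f := ρ'.rangeRestrict_surjective
  have : Finite ρ'.range := Finite.of_surjective f hfs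
  set σ : ρ'.range →* AddMonoid.End (Additive (Abelianization V)) :=
    (Units.coeHom _).comp ρ'.range.subtype with hσ
  have hσf : ∀ x, σ (f x) = rho V x := fun x => rfl
  have hσi : Function.Injective σ := by
    intro x y hxy
    apply Subtype.ext
    apply Units.ext
    exact hxy
  have key : ((P.mapSurjective hfs : Sylow p ρ'.range) : Subgroup ρ'.range) = ⊤ := by
    apply eq_top_of_quadratic hp2 hR σ hσi
    · rintro _ ⟨s, hs, rfl⟩ _ ⟨t, ht, rfl⟩
      change (rho V s - 1) * (rho V t - 1) = 0
      ext a
      induction a with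
      | _ a =>
      obtain ⟨v, rfl⟩ := QuotientGroup.mk_surjective a
      have h1 : (rho V t - 1) (Additive.ofMul (Abelianization.of v))
          = Additive.ofMul (Abelianization.of (MulAut.conjNormal t v * v⁻¹)) := by
        change rho V t _ - _ = _
        rw [rho_apply, map_mul, map_inv, ofMul_mul, ofMul_inv, ← sub_eq_add_neg]
        rfl
      change (rho V s - 1) ((rho V t - 1) (Additive.ofMul (Abelianization.of v))) = _
      rw [h1]
      have h2 : MulAut.conjNormal s (MulAut.conjNormal t v * v⁻¹)
          = MulAut.conjNormal t v * v⁻¹ := by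
        apply Subtype.ext
        rw [MulAut.conjNormal_apply, coe_mul, MulAut.conjNormal_apply, coe_inv,
          hquad v v.2 t ht s hs, mul_inv_cancel_right]
      change rho V s _ - _ = _
      rw [rho_apply, h2]
      exact sub_self _
    · intro y hy
      obtain ⟨s, hs, x, hx, rfl⟩ := normalizer_image f hfs P hy
      apply mul_mem
      · exact ⟨s, hs, rfl⟩
      · obtain ⟨k, l, h1, ⟨e, he⟩, h3⟩ := decomp p x
        have h4 : x ^ k ∈ P := by
          have hz : IsPGroup p (zpowers (x ^ k)) := by
            intro z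
            obtain ⟨z, i, rfl⟩ := z
            refine ⟨e, Subtype.ext ?_⟩
            simp only [coe_pow, coe_one]
            rw [← zpow_natCast, ← zpow_mul, mul_comm, zpow_mul, zpow_natCast, he, one_zpow]
          obtain ⟨n, -, hn⟩ := full_self P (zpowers (x ^ k)) hz (by
            rw [zpowers_le]; exact pow_mem hx _)
          have hsup : IsPGroup p (zpowers (x ^ k) ⊔ (P : Subgroup G) : Subgroup G) :=
            hz.to_sup_of_normal_right' P.isPGroup' (by rw [zpowers_le]; exact pow_mem hx _)
          have h5 := P.is_maximal' hsup le_sup_right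
          have h6 : x ^ k ∈ zpowers (x ^ k) ⊔ (P : Subgroup G) :=
            mem_sup_left (mem_zpowers _)
          rw [h5] at h6
          exact h6
        have h5 : f (x ^ l) = 1 := by
          apply hσi
          rw [hσf, map_one]
          ext a
          induction a with
          | _ a =>
          obtain ⟨v, rfl⟩ := QuotientGroup.mk_surjective a
          have h6 : MulAut.conjNormal (x ^ l) v = v := by
            apply Subtype.ext
            rw [MulAut.conjNormal_apply, hC _ (pow_mem hx _) h3 v (hVP v.2),
              mul_inv_cancel_right]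
          have h7 := rho_apply V (x ^ l) v
          rw [h6] at h7
          exact h7
        refine ⟨x ^ k, h4, ?_⟩
        conv_rhs => rw [← h1]
        rw [map_mul, h5, mul_one]
  have hpg : IsPGroup p ρ'.range := by
    have h1 := (P.mapSurjective hfs : Sylow p ρ'.range).isPGroup'
    rw [key] at h1
    exact h1.of_equiv topEquiv
  have h1 : f g = 1 := by
    obtain ⟨e, he⟩ := hpg (f g)
    apply eq_one_of_both he (n := orderOf g) _ hg
    rw [← map_pow, pow_orderOf_eq_one, map_one]
  have h2 : rho V g = 1 := by
    rw [← hσf, h1, map_one]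
  have h3 := rho_apply V g v
  rw [h2] at h3
  have h4 : (Abelianization.of v : Abelianization V) = Abelianization.of (MulAut.conjNormal g v) :=
    h3
  rw [← Abelianization.ker_of, MonoidHom.mem_ker, map_mul, map_inv, ← h4, mul_inv_cancel]

end app

end Pool.Agent.R691.PN
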