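import Mathlib
import Pool.Agent.R691.PN.Conj

set_option autoImplicit false
set_option linter.unusedSectionVars false

/-! # Normal `p`-subgroups not centralised by the `p'`-elements -/

namespace Pool.Agent.R691.PN

open Subgroup Pool.Agent.H302R2

section pgroup
variable {p : ℕ} [hp : Fact p.Prime] {G : Type*} [Group G] [Finite G]

lemma exists_index_p {P : Type*} [Group P] [Finite P] (hP : IsPGroup p P) (B : Subgroup P)
    (hB : B ≠ ⊤) : ∃ M : Subgroup P, M.Normal ∧ B ≤ M ∧ M.index = p := by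
  obtain ⟨n, hn⟩ := hP.exists_card_eq
  obtain ⟨m, hm⟩ := (hP.to_subgroup B).exists_card_eq
  have hmn : m < n := by
    have h1 : Nat.card B ∣ Nat.card P := card_subgroup_dvd_card B
    rw [hn, hm] at h1
    have h2 : m ≤ n := (Nat.pow_dvd_pow_iff_le_right hp.out.one_lt).1 h1
    rcases h2.lt_or_eq with h | h
    · exact h
    · exact absurd (Subgroup.eq_top_of_card_eq B (by rw [hm, hn, h])) hB
  have h1 : p ^ (n - 1) ∣ Nat.card P := by
    rw [hn]; exact pow_dvd_pow _ (Nat.sub_le _ _)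
  obtain ⟨M, hM1, hM2⟩ := Sylow.exists_subgroup_card_pow_prime_le p h1 B hm (by lia)
  have h3 : M.index = p := by
    have h4 := M.card_mul_index
    rw [hM1, hn] at h4
    have h5 : p ^ n = p ^ (n - 1) * p := by
      rw [← pow_succ]; congr 1; lia
    rw [h5] at h4
    exact Nat.eq_of_mul_eq_mul_left (pow_pos hp.out.pos _) h4
  refine ⟨M, ?_, hM2, h3⟩
  apply normal_of_index_eq_minFac_card
  rw [h3, hn, Nat.Prime.pow_minFac hp.out (by lia)]

lemma comm_mem_of_index_p {P : Type*} [Group P] [Finite P] {M : Subgroup P} [M.Normal]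
    (h : M.index = p) (x y : P) : x * y * x⁻¹ * y⁻¹ ∈ M := by
  have h1 : Nat.card (P ⧸ M) = p := h
  have h2 : IsCyclic (P ⧸ M) := isCyclic_of_prime_card h1
  have h3 : ∀ a b : P ⧸ M, a * b = b * a := fun a b => by
    let := IsCyclic.commGroup (α := P ⧸ M)
    exact mul_comm a b
  rw [← QuotientGroup.eq_one_iff]
  have h4 := h3 (x : P ⧸ M) (y : P ⧸ M)
  rw [QuotientGroup.mk_mul, QuotientGroup.mk_mul, QuotientGroup.mk_mul, QuotientGroup.mk_inv,
    QuotientGroup.mk_inv, h4]
  group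

lemma exists_max_sub {A B : Subgroup G} (hA : IsPGroup p A) (hBA : B ≤ A) (hne : B ≠ A) :
    ∃ M ≤ A, M ≠ A ∧ B ≤ M ∧ (∀ x ∈ A, x ^ p ∈ M) ∧
      ∀ x ∈ A, ∀ y ∈ A, x * y * x⁻¹ * y⁻¹ ∈ M := by
  have h1 : B.subgroupOf A ≠ ⊤ := by
    intro h
    exact hne (le_antisymm hBA (subgroupOf_eq_top.1 h))
  obtain ⟨M, hM1, hM2, hM3⟩ := exists_index_p hA _ h1
  refine ⟨M.map A.subtype, map_subtype_le M, ?_, ?_, ?_, ?_⟩
  · intro h
    have h2 : M = ⊤ := by
      rw [eq_top_iff]
      intro x _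
      have h3 : (x : G) ∈ M.map A.subtype := by rw [h]; exact x.2
      obtain ⟨y, hy, hy2⟩ := h3
      have : y = x := Subtype.ext hy2
      rwa [← this]
    rw [h2, index_top] at hM3
    exact hp.out.one_lt.ne hM3
  · intro b hb
    exact ⟨⟨b, hBA hb⟩, hM2 (by rw [mem_subgroupOf]; exact hb), rfl⟩
  · intro x hx
    refine ⟨⟨x, hx⟩ ^ p, ?_, rfl⟩
    have := M.pow_index_mem (⟨x, hx⟩ : A)
    rwa [hM3] at this
  · intro x hx y hy
    exact ⟨⟨x, hx⟩ * ⟨y, hy⟩ * ⟨x, hx⟩⁻¹ * ⟨y, hy⟩⁻¹, comm_mem_of_index_p hM3 _ _, rfl⟩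

omit [Finite G] in
/-- powers of products in class two -/
lemma mul_pow_class_two {v w c : G} (hc : w * v = v * w * c) (hcv : c * v = v * c)
    (hcw : c * w = w * c) (n : ℕ) : (v * w) ^ n = v ^ n * w ^ n * c ^ (n.choose 2) := by
  have h1 : ∀ n : ℕ, w ^ n * v = v * w ^ n * c ^ n := by
    intro n
    induction n with
    | zero => simp
    | succ n ih =>
      have hc1 : Commute c w := hcw
      calc w ^ (n + 1) * v = w * (w ^ n * v) := by rw [pow_succ', mul_assoc]
        _ = w * v * (w ^ n * c ^ n) := by rw [ih]; group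
        _ = v * w * (c * w ^ n) * c ^ n := by rw [hc]; group
        _ = v * w * (w ^ n * c) * c ^ n := by rw [(hc1.pow_right n).eq]
        _ = v * w ^ (n + 1) * c ^ (n + 1) := by rw [pow_succ' w, pow_succ' c]; group
  induction n with
  | zero => simp
  | succ n ih =>
    have hc1 : Commute c w := hcw
    have hc2 : Commute c v := hcv
    have hc3 : Commute (c ^ (n.choose 2)) (v * w) := (hc2.mul_right hc1).pow_left _
    have hc4 : Commute (c ^ n) w := hc1.pow_left n
    calc (v * w) ^ (n + 1) = v ^ n * w ^ n * (c ^ (n.choose 2) * (v * w)) := by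
          rw [pow_succ, ih]; group
      _ = v ^ n * (w ^ n * v) * w * c ^ (n.choose 2) := by rw [hc3.eq]; group
      _ = v ^ n * v * w ^ n * (c ^ n * w) * c ^ (n.choose 2) := by rw [h1]; group
      _ = v ^ (n + 1) * w ^ (n + 1) * c ^ ((n + 1).choose 2) := by
          rw [hc4.eq, pow_succ v, pow_succ w, Nat.choose_succ_succ' n 1, Nat.choose_one_right,
            pow_add]
          group

end pgroup

section minimal
variable {p : ℕ} [hp : Fact p.Prime] {G : Type*} [Group G] [Finite G]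

/-- all `p'`-elements centralise `V` -/
def PC (p : ℕ) {G : Type*} [Group G] (V : Subgroup G) : Prop :=
  ∀ g : G, ¬ p ∣ orderOf g → ∀ v ∈ V, g * v = v * g

lemma exists_minimal (h : ∃ U : Subgroup G, U.Normal ∧ IsPGroup p U ∧ ¬ PC p U) :
    ∃ V : Subgroup G, V.Normal ∧ IsPGroup p V ∧ ¬ PC p V ∧
      ∀ D : Subgroup G, D.Normal → D ≤ V → D ≠ V → PC p D := by
  classical
  obtain ⟨V, ⟨hV1, hV2, hV3⟩, hV4⟩ := Set.exists_min_image
    {U : Subgroup G | U.Normal ∧ IsPGroup p U ∧ ¬ PC p U} (fun U => Nat.card U)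
    (Set.toFinite _) h
  refine ⟨V, hV1, hV2, hV3, fun D hD1 hD2 hD3 => ?_⟩
  by_contra hD4
  have h1 := hV4 D ⟨hD1, hV2.to_le hD2, hD4⟩
  exact hD3 (eq_of_le_of_card_ge hD2 h1)

/-- the generators of `[V, O^p(G)]` -/
def gens (p : ℕ) {G : Type*} [Group G] (V : Subgroup G) : Set G :=
  {c | ∃ v ∈ V, ∃ g : G, ¬ p ∣ orderOf g ∧ c = v⁻¹ * g * v * g⁻¹}

omit [Finite G] hp in
lemma orderOf_conj (g x : G) : orderOf (g * x * g⁻¹) = orderOf x :=
  orderOf_injective (MulAut.conj g).toMonoidHom (MulAut.conj g).injective x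

omit [Finite G] in
lemma closure_normal_of {S : Set G} (h : ∀ s ∈ S, ∀ g : G, g * s * g⁻¹ ∈ S) :
    (closure S).Normal := by
  constructor
  intro n hn g
  change MulAut.conj g n ∈ closure S
  induction hn using closure_induction with
  | mem x hx => exact Subgroup.subset_closure (h x hx g)
  | one => rw [map_one]; exact one_mem _
  | mul x y _ _ h1 h2 => rw [map_mul]; exact mul_mem h1 h2
  | inv x _ h => rw [map_inv]; exact inv_mem h

variable {V : Subgroup G} (hV1 : V.Normal) (hV2 : IsPGroup p V) (hV3 : ¬ PC p V)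
  (hV4 : ∀ D : Subgroup G, D.Normal → D ≤ V → D ≠ V → PC p D)

include hV1 hV2 hV3 hV4

lemma closure_gens : closure (gens p V) = V := by
  by_contra hne
  have hle : closure (gens p V) ≤ V := by
    rw [closure_le]
    rintro _ ⟨v, hv, g, hg, rfl⟩
    have : v⁻¹ * g * v * g⁻¹ = v⁻¹ * (g * v * g⁻¹) := by group
    rw [this]
    exact mul_mem (inv_mem hv) (hV1.conj_mem v hv g)
  have hnor : (closure (gens p V)).Normal := by
    apply closure_normal_of
    rintro _ ⟨v, hv, g, hg, rfl⟩ x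
    refine ⟨x * v * x⁻¹, hV1.conj_mem v hv x, x * g * x⁻¹, ?_, ?_⟩
    · rwa [orderOf_conj]
    · group
  have hPC := hV4 _ hnor hle hne
  apply hV3
  intro g hg v hv
  set c := v⁻¹ * g * v * g⁻¹ with hc
  have hcW : c ∈ closure (gens p V) := Subgroup.subset_closure ⟨v, hv, g, hg, rfl⟩
  have hcomm : Commute c g := (hPC g hg c hcW).symm
  have h1 : v⁻¹ * g * v⁻¹⁻¹ = c * g := by rw [hc]; group
  have h2 : c ^ orderOf g = 1 := by
    have h3 : (v⁻¹ * g * v⁻¹⁻¹) ^ orderOf g = 1 := by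
      rw [conj_pow, pow_orderOf_eq_one, mul_one, mul_inv_cancel]
    rw [h1, hcomm.mul_pow, pow_orderOf_eq_one, mul_one] at h3
    exact h3
  obtain ⟨e, he⟩ := hV2 ⟨c, hle hcW⟩
  have he' : c ^ p ^ e = 1 := congrArg Subtype.val he
  have h4 : c = 1 := eq_one_of_both he' h2 hg
  rw [h4, inv_inv, one_mul] at h1
  have h5 : v * (v⁻¹ * g * v) = v * g := by rw [h1]
  rw [← h5]; group

lemma comm_of_lt {D : Subgroup G} (hD1 : D.Normal) (hD2 : D ≤ V) (hD3 : D ≠ V) {d v : G}
    (hd : d ∈ D) (hv : v ∈ V) : v * d = d * v := by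
  have hPC := hV4 D hD1 hD2 hD3
  rw [← closure_gens hV1 hV2 hV3 hV4] at hv
  have : v ∈ centralizer ({d} : Set G) := by
    have hle : closure (gens p V) ≤ centralizer ({d} : Set G) := by
      rw [closure_le]
      rintro _ ⟨v, hv, g, hg, rfl⟩
      have h1 : ∀ g : G, ¬ p ∣ orderOf g → g ∈ centralizer ({d} : Set G) := by
        intro g hg
        rw [mem_centralizer_singleton_iff]
        exact hPC g hg d hd
      apply mul_mem
      · apply h1
        have := orderOf_conj v⁻¹ g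
        rw [inv_inv] at this
        rwa [this]
      · apply inv_mem
        exact h1 g hg
    exact hle hv
  rw [mem_centralizer_singleton_iff] at this
  exact this

lemma exponent_p (hp2 : p ≠ 2) {v : G} (hv : v ∈ V) : v ^ p = 1 := by
  have hbot : (⊥ : Subgroup G) ≠ V := by
    intro h
    apply hV3
    rw [← h]
    intro g _ v hv
    rw [mem_bot] at hv
    rw [hv, mul_one, one_mul]
  obtain ⟨M, hMV, hM1, -, hM2, hM3⟩ := exists_max_sub hV2 bot_le hbot
  set S : Set G := {x | (∃ v ∈ V, x = v ^ p) ∨ ∃ v ∈ V, ∃ w ∈ V, x = v * w * v⁻¹ * w⁻¹} with hS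
  have hSM : closure S ≤ M := by
    rw [closure_le]
    rintro x (⟨v, hv, rfl⟩ | ⟨v, hv, w, hw, rfl⟩)
    · exact hM2 v hv
    · exact hM3 v hv w hw
  have hSnor : (closure S).Normal := by
    apply closure_normal_of
    rintro x (⟨v, hv, rfl⟩ | ⟨v, hv, w, hw, rfl⟩) g
    · left
      exact ⟨g * v * g⁻¹, hV1.conj_mem v hv g, by rw [conj_pow]⟩
    · right
      exact ⟨g * v * g⁻¹, hV1.conj_mem v hv g, g * w * g⁻¹, hV1.conj_mem w hw g, by group⟩
  have hSV : closure S ≤ V := hSM.trans hMV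
  have hSne : closure S ≠ V := by
    intro h
    rw [h] at hSM
    exact hM1 (le_antisymm hMV hSM)
  have hPC := hV4 _ hSnor hSV hSne
  have hcen := fun {d v : G} (hd : d ∈ closure S) (hv : v ∈ V) =>
    comm_of_lt hV1 hV2 hV3 hV4 hSnor hSV hSne hd hv
  have hmul : ∀ v ∈ V, ∀ w ∈ V, (v * w) ^ p = v ^ p * w ^ p := by
    intro v hv w hw
    set c := w⁻¹ * v⁻¹ * w⁻¹⁻¹ * v⁻¹⁻¹ with hc
    have hcS : c ∈ closure S :=
      Subgroup.subset_closure (Or.inr ⟨w⁻¹, inv_mem hw, v⁻¹, inv_mem hv, rfl⟩)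
    have h1 : w * v = v * w * c := by rw [hc]; group
    have h2 := hcen hcS hv
    have h3 := hcen hcS hw
    have h4 : c ^ p = 1 := by
      -- from `w ^ p * v = v * w ^ p * c ^ p`
      have h5 : (w⁻¹ * v * w) = v * c⁻¹ := by
        have : w⁻¹ * (w * v) = v := by group
        have h6 : w⁻¹ * v * w * c = v := by
          calc w⁻¹ * v * w * c = w⁻¹ * (v * w * c) := by group
            _ = w⁻¹ * (w * v) := by rw [← h1]
            _ = v := this
        rw [eq_mul_inv_iff_mul_eq]; exact h6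
      have h7 : (w⁻¹ * v * w⁻¹⁻¹) ^ p = v ^ p := by
        rw [conj_pow]
        have h8 := hcen (Subgroup.subset_closure (Or.inl ⟨v, hv, rfl⟩) : v ^ p ∈ closure S)
          (inv_mem hw)
        rw [h8, mul_inv_cancel_right]
      rw [inv_inv, h5] at h7
      have h9 : Commute v c⁻¹ := Commute.inv_right h2
      rw [h9.mul_pow, inv_pow] at h7
      have h10 : (c ^ p)⁻¹ = 1 := by
        have := mul_left_cancel (h7.trans (mul_one _).symm)
        exact this
      exact inv_eq_one.1 h10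
    have h5 := mul_pow_class_two h1 h2.symm h3.symm p
    have h6 : p ∣ p.choose 2 := by
      apply hp.out.dvd_choose_self (by norm_num)
      rcases hp.out.two_le.lt_or_eq with h | h
      · exact h
      · exact absurd h.symm hp2
    obtain ⟨m, hm⟩ := h6
    rw [hm, pow_mul, h4, one_pow, mul_one] at h5
    exact h5
  have hgen : ∀ c ∈ gens p V, c ^ p = 1 := by
    rintro _ ⟨v, hv, g, hg, rfl⟩
    have h1 : v⁻¹ * g * v * g⁻¹ = v⁻¹ * (g * v * g⁻¹) := by group
    rw [h1, hmul _ (inv_mem hv) _ (hV1.conj_mem v hv g), conj_pow,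
      hPC g hg (v ^ p) (Subgroup.subset_closure (Or.inl ⟨v, hv, rfl⟩))]
    rw [inv_pow]; group
  have h1 : v ∈ closure (gens p V) := by rw [closure_gens hV1 hV2 hV3 hV4]; exact hv
  have h2 : ∀ x ∈ closure (gens p V), x ∈ V ∧ x ^ p = 1 := by
    intro x hx
    induction hx using closure_induction with
    | mem x hx =>
      refine ⟨?_, hgen x hx⟩
      rw [← closure_gens hV1 hV2 hV3 hV4]
      exact Subgroup.subset_closure hx
    | one => exact ⟨one_mem _, one_pow _⟩
    | mul x y _ _ hx hy =>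
      exact ⟨mul_mem hx.1 hy.1, by rw [hmul x hx.1 y hy.1, hx.2, hy.2, mul_one]⟩
    | inv x _ hx => exact ⟨inv_mem hx.1, by rw [inv_pow, hx.2, inv_one]⟩
  exact (h2 v h1).2

end minimal

end Pool.Agent.R691.PN
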