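import Mathlib
import Pool.Agent.R691.PN.MinNormal

set_option autoImplicit false
set_option linter.unusedSectionVars false

/-! # The main criterion -/

namespace Pool.Agent.R691.PN

open Subgroup Pool.Agent.H302R2

/-- the `p`-nilpotent residual -/
def resN (p : ℕ) (G : Type*) [Group G] : Subgroup G :=
  sInf {N : Subgroup G | ∃ _ : N.Normal, PNilp p (G ⧸ N)}

/-- the embedding condition -/
def Cond (p : ℕ) {G : Type*} [Group G] (P : Subgroup G) : Prop :=
  ∀ x : G, x ∉ normalizer (P : Set G) → ∀ y ∈ resN p G, y ∈ P → x * y * x⁻¹ ∈ P →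
    orderOf y = p → (∀ z ∈ P, z * y = y * z) ∨
      ∃ B ≤ P, y ∉ B ∧ ∀ z ∈ P, ∃ k : ℕ, y ^ k * z ∈ B

section
variable {p : ℕ} [hp : Fact p.Prime] {G : Type*} [Group G] [Finite G]

omit [Finite G] in
lemma resN_coe {H : Subgroup G} {y : H} (hy : y ∈ resN p H) : (y : G) ∈ resN p G := by
  rw [resN, mem_sInf] at hy ⊢
  rintro N ⟨hN, hNp⟩
  have h1 : (N.subgroupOf H).Normal := inferInstance
  apply hy (N.subgroupOf H)
  refine ⟨h1, ?_⟩
  let f : H ⧸ N.subgroupOf H →* G ⧸ N :=
    QuotientGroup.map _ _ H.subtype (by intro x hx; exact hx)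
  apply hNp.of_injective f
  rw [injective_iff_map_eq_one]
  intro a ha
  obtain ⟨x, rfl⟩ := QuotientGroup.mk_surjective a
  have h2 : ((x : G) : G ⧸ N) = 1 := ha
  rw [QuotientGroup.eq_one_iff] at h2
  exact (QuotientGroup.eq_one_iff _).2 h2

lemma gens_mem_resN {V : Subgroup G} (hV1 : V.Normal) (hV2 : IsPGroup p V) {c : G}
    (hc : c ∈ gens p V) : c ∈ resN p G := by
  obtain ⟨v, hv, g, hg, rfl⟩ := hc
  rw [resN, mem_sInf]
  rintro N ⟨hN, hNp⟩
  have h1 : IsPGroup p (V.map (QuotientGroup.mk' N)) := hV2.map _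
  have h2 : (V.map (QuotientGroup.mk' N)).Normal := hV1.map _ (QuotientGroup.mk'_surjective N)
  have h3 : ¬ p ∣ orderOf (g : G ⧸ N) := by
    intro h
    exact hg (h.trans (orderOf_map_dvd (QuotientGroup.mk' N) g))
  have h4 := hNp.comm h1 (g := (g : G ⧸ N)) (by
    rw [normalizer_eq_top_iff.2 h2]; exact mem_top _) h3 (x := (v : G ⧸ N)) ⟨v, hv, rfl⟩
  rw [← QuotientGroup.eq_one_iff, QuotientGroup.mk_mul, QuotientGroup.mk_mul,
    QuotientGroup.mk_mul, QuotientGroup.mk_inv, QuotientGroup.mk_inv,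
    mul_assoc (((v : G ⧸ N))⁻¹), h4]
  group

lemma normal_le_sylow (P : Sylow p G) {V : Subgroup G} (hV1 : V.Normal) (hV2 : IsPGroup p V) :
    V ≤ P := by
  have h1 : IsPGroup p (V ⊔ (P : Subgroup G) : Subgroup G) :=
    hV2.to_sup_of_normal_left P.isPGroup'
  have h2 := P.is_maximal' h1 le_sup_right
  intro v hv
  have h3 : v ∈ V ⊔ (P : Subgroup G) := mem_sup_left hv
  rw [h2] at h3
  exact h3

theorem no_bad_normal (hp2 : p ≠ 2) (P : Sylow p G)
    (hC : ∀ g ∈ normalizer ((P : Subgroup G) : Set G), ¬ p ∣ orderOf g → ∀ x ∈ P, g * x = x * g)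
    (hcond : Cond p (P : Subgroup G)) (U : Subgroup G) (hU : U.Normal) (hUp : IsPGroup p U) :
    PC p U := by
  by_contra hUPC
  obtain ⟨V, hV1, hV2, hV3, hV4⟩ := exists_minimal ⟨U, hU, hUp, hUPC⟩
  have hVP : V ≤ P := normal_le_sylow P hV1 hV2
  obtain ⟨x0, hx0⟩ : ∃ x0, x0 ∉ normalizer ((P : Subgroup G) : Set G) := by
    by_contra h
    push Not at h
    exact hV3 fun g hg v hv => hC g (h g) hg v (hVP hv)
  have hVres : V ≤ resN p G := by
    rw [← closure_gens hV1 hV2 hV3 hV4, closure_le]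
    intro c hc
    exact gens_mem_resN hV1 hV2 hc
  have hexp : ∀ v ∈ V, v ^ p = 1 := fun v hv => exponent_p hV1 hV2 hV3 hV4 hp2 hv
  have hquad : ∀ v ∈ V, ∀ s ∈ P, ∀ t ∈ P,
      t * (s * v * s⁻¹ * v⁻¹) = (s * v * s⁻¹ * v⁻¹) * t := by
    intro v hv s hs t ht
    set c := s * v * s⁻¹ * v⁻¹ with hc
    have hcV : c ∈ V := mul_mem (hV1.conj_mem v hv s) (inv_mem hv)
    by_cases hc1 : c = 1
    · rw [hc1, mul_one, one_mul]
    · have hord : orderOf c = p := orderOf_eq_prime (hexp c hcV) hc1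
      rcases hcond x0 hx0 c (hVres hcV) (hVP hcV) (hVP (hV1.conj_mem c hcV x0)) hord with h | h
      · exact h t ht
      · exfalso
        obtain ⟨B, hBP, hcB, hB⟩ := h
        have hBne : B ≠ P := by
          intro h; rw [h] at hcB; exact hcB (hVP hcV)
        obtain ⟨M, hMP, hM1, hBM, -, hM2⟩ := exists_max_sub P.isPGroup' hBP hBne
        have hcM : c ∈ M := hM2 s hs v (hVP hv)
        apply hM1
        apply le_antisymm hMP
        intro z hz
        obtain ⟨k, hk⟩ := hB z hz
        have h2 := mul_mem (inv_mem (pow_mem hcM k)) (hBM hk)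
        rwa [inv_mul_cancel_left] at h2
  have key := comm_mem_of_quadratic hp2 P hC V hVP hexp hquad
  have hle : V ≤ (commutator V).map V.subtype := by
    conv_lhs => rw [← closure_gens hV1 hV2 hV3 hV4]
    rw [closure_le]
    rintro _ ⟨v, hv, g, hg, rfl⟩
    have h1 := key g hg ⟨v, hv⟩
    have h2 : (commutator V).Normal := inferInstance
    have h3 := h2.conj_mem _ h1 ⟨v, hv⟩⁻¹
    refine ⟨_, h3, ?_⟩
    rw [coe_subtype]
    simp only [coe_mul, coe_inv, MulAut.conjNormal_apply]
    group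
  have htop : commutator V = ⊤ := by
    rw [eq_top_iff]
    intro v _
    obtain ⟨w, hw, hw2⟩ := hle v.2
    have : w = v := Subtype.ext hw2
    rwa [← this]
  have hnt : Nontrivial V := by
    rw [nontrivial_iff_ne_bot]
    intro h
    apply hV3
    rw [h]
    intro g _ v hv
    rw [mem_bot] at hv
    rw [hv, mul_one, one_mul]
  have hnil : Group.IsNilpotent V := hV2.isNilpotent
  have hsolv : Group.IsSolvable V := inferInstance
  have h1 : commutator V < ⊤ := Group.IsSolvable.commutator_lt_top_of_nontrivial V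
  exact h1.ne htop

/-- some `p'`-element of the normalizer of `U` does not centralise `U` -/
def Bad (p : ℕ) {G : Type*} [Group G] (U : Subgroup G) : Prop :=
  ∃ g ∈ normalizer (U : Set G), ¬ p ∣ orderOf g ∧ ∃ x ∈ U, g * x ≠ x * g

omit [Finite G] in
lemma bad_cj {U : Subgroup G} (h : Bad p U) (x : G) : Bad p (cj x U) := by
  obtain ⟨g, hg, hgp, y, hy, hne⟩ := h
  refine ⟨x * g * x⁻¹, ?_, by rwa [orderOf_conj], x * y * x⁻¹, conj_mem_cj hy, ?_⟩
  · have h1 : cj x (zpowers g) ≤ normalizer (cj x U : Set G) :=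
      cj_le_normalizer (by rw [zpowers_le]; exact hg)
    exact h1 (conj_mem_cj (mem_zpowers g))
  · intro h
    apply hne
    have h2 : x * (g * y) * x⁻¹ = x * (y * g) * x⁻¹ := by
      calc x * (g * y) * x⁻¹ = x * g * x⁻¹ * (x * y * x⁻¹) := by group
        _ = x * y * x⁻¹ * (x * g * x⁻¹) := h
        _ = x * (y * g) * x⁻¹ := by group
    exact mul_left_cancel (mul_right_cancel h2)

lemma exists_sylow_full (P : Sylow p G) {U : Subgroup G} (hU : Full P U) :
    ∃ T : Sylow p (normalizer (U : Set G)),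
      (T : Subgroup (normalizer (U : Set G))) = (P : Subgroup G).subgroupOf (normalizer (U : Set G)) := by
  set M := normalizer (U : Set G) with hM
  obtain ⟨T⟩ : Nonempty (Sylow p M) := inferInstance
  have hR : IsPGroup p ((T : Subgroup M).map M.subtype) := T.isPGroup'.map _
  obtain ⟨n, hn, hn2⟩ := hU _ hR (by
    rintro _ ⟨y, -, rfl⟩
    exact y.2)
  have hT : ((⟨n, hn⟩ : M) • T : Sylow p M) ≤ ((P : Subgroup G).subgroupOf M) := by
    intro y hy
    rw [mem_subgroupOf]
    rw [Sylow.coe_subgroup_smul] at hy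
    obtain ⟨t, ht, rfl⟩ := hy
    exact hn2 _ ⟨t, ht, rfl⟩
  refine ⟨(⟨n, hn⟩ : M) • T, ?_⟩
  have h1 : IsPGroup p ((P : Subgroup G).subgroupOf M) := P.isPGroup'.comap_subtype
  exact (((⟨n, hn⟩ : M) • T).is_maximal' h1 hT).symm

/-- normalizers grow in `p`-groups -/
lemma lt_normalizer {P T : Subgroup G} (hP : IsPGroup p P) (hTP : T ≤ P) (hne : T ≠ P) :
    T < P ⊓ normalizer (T : Set G) := by
  have hnil : Group.IsNilpotent P := hP.isNilpotent
  have h1 : T.subgroupOf P < ⊤ := by
    rw [lt_top_iff_ne_top]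
    intro h
    exact hne (le_antisymm hTP (subgroupOf_eq_top.1 h))
  have h2 := (Group.normalizerCondition_of_isNilpotent (G := P)) _ h1
  obtain ⟨z, hz1, hz2⟩ := SetLike.exists_of_lt h2
  have h3 : T ≤ P ⊓ normalizer (T : Set G) := le_inf hTP le_normalizer
  apply lt_of_le_of_ne h3
  intro h
  apply hz2
  rw [mem_subgroupOf, h]
  refine ⟨z.2, ?_⟩
  apply mem_normalizer_of_conj_le
  intro s hs
  have h4 := (mem_normalizer_iff.1 hz1 ⟨s, hTP hs⟩).1 (by rw [mem_subgroupOf]; exact hs)
  rw [mem_subgroupOf] at h4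
  exact h4

end

universe u

/-- **Theorem A.** -/
theorem thmA {p : ℕ} [hp : Fact p.Prime] (hp2 : p ≠ 2) : ∀ (n : ℕ) (G : Type u) [Group G] [Finite G],
    Nat.card G = n → ∀ P : Sylow p G,
    (∀ g ∈ normalizer ((P : Subgroup G) : Set G), ¬ p ∣ orderOf g → ∀ x ∈ P, g * x = x * g) →
    Cond p (P : Subgroup G) → PNilp p G := by
  intro n
  induction n using Nat.strong_induction_on with
  | _ n ih =>
  intro G _ _ hn P hC hcond
  apply pnilp_of_frob _ G rfl
  intro Q hQ g hg hgp x hx
  by_contra hne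
  have hQbad : Bad p Q := ⟨g, hg, hgp, x, hx, hne⟩
  -- move into `P`
  have hne : {U : Subgroup G | U ≤ P ∧ Full P U ∧ Bad p U}.Nonempty := by
    obtain ⟨P', hP'⟩ := hQ.exists_le_sylow
    obtain ⟨z, hz⟩ := MulAction.exists_smul_eq G P' P
    have h1 : cj z Q ≤ P := by
      rintro _ ⟨y, hy, rfl⟩
      have := Subgroup.smul_mem_pointwise_smul y (MulAut.conj z) (P' : Subgroup G) (hP' hy)
      rw [← Sylow.pointwise_smul_def] at this
      have h2 : (MulAut.conj z • P' : Sylow p G) = P := hz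
      rw [h2] at this
      exact this
    obtain ⟨x, hx1, hx2⟩ := exists_full P _ h1
    refine ⟨cj x (cj z Q), ?_, hx2, bad_cj (bad_cj hQbad z) x⟩
    rintro _ ⟨y, hy, rfl⟩
    exact hx1 y hy
  obtain ⟨U, ⟨hU1, hU2, hU3⟩, hUmax⟩ := Set.exists_max_image
    {U : Subgroup G | U ≤ P ∧ Full P U ∧ Bad p U}
    (fun U => Nat.card ((P : Subgroup G) ⊓ normalizer (U : Set G) : Subgroup G))
    (Set.toFinite _) hne
  set H := normalizer (U : Set G) with hH
  have hUp : IsPGroup p U := P.isPGroup'.to_le hU1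
  by_cases hHtop : H = ⊤
  · have hUn : U.Normal := normalizer_eq_top_iff.1 hHtop
    obtain ⟨g, -, hgp, x, hx, hne⟩ := hU3
    exact hne (no_bad_normal hp2 P hC hcond U hUn hUp g hgp x hx)
  · obtain ⟨T', hT'⟩ := exists_sylow_full P hU2
    have hcard : Nat.card H < n := by
      rw [← hn]
      rcases (Subgroup.card_le_card_group H).lt_or_eq with h | h
      · exact h
      · exact absurd (Subgroup.eq_top_of_card_eq _ h) hHtop
    set T : Subgroup G := (P : Subgroup G) ⊓ H with hT
    have hTC : ∀ g ∈ normalizer (T : Set G), ¬ p ∣ orderOf g → ∀ x ∈ T, g * x = x * g := by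
      by_cases hTP : T = P
      · rw [hTP]; exact hC
      · by_contra hcon
        push Not at hcon
        have hTbad : Bad p T := by
          obtain ⟨g, hg1, hg2, x, hx, hne⟩ := hcon
          exact ⟨g, hg1, hg2, x, hx, hne⟩
        obtain ⟨x, hx1, hx2⟩ := exists_full P T inf_le_left
        have hle : cj x T ≤ P := by
          rintro _ ⟨y, hy, rfl⟩
          exact hx1 y hy
        have h1 := hUmax (cj x T) ⟨hle, hx2, bad_cj hTbad x⟩
        have h2 := lt_normalizer P.isPGroup' (inf_le_left : T ≤ P) hTP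
        have h3 : IsPGroup p ((P : Subgroup G) ⊓ normalizer (T : Set G) : Subgroup G) :=
          P.isPGroup'.to_le inf_le_left
        obtain ⟨n, hn1, hn2⟩ := hx2 (cj x ((P : Subgroup G) ⊓ normalizer (T : Set G)))
          (h3.map _) (cj_le_normalizer inf_le_right)
        have h4 : cj n (cj x ((P : Subgroup G) ⊓ normalizer (T : Set G)))
            ≤ (P : Subgroup G) ⊓ normalizer (cj x T : Set G) := by
          rintro _ ⟨y, hy, rfl⟩
          have hy1 : y ∈ normalizer (cj x T : Set G) := cj_le_normalizer inf_le_right hy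
          have hy2 : n * y * n⁻¹ ∈ normalizer (cj x T : Set G) :=
            mul_mem (mul_mem hn1 hy1) (inv_mem hn1)
          exact ⟨hn2 y hy, hy2⟩
        have h5 := Subgroup.card_le_of_le h4
        rw [card_cj, card_cj] at h5
        have h6 : Nat.card T < Nat.card ((P : Subgroup G) ⊓ normalizer (T : Set G) : Subgroup G) := by
          by_contra h
          push Not at h
          exact h2.ne (eq_of_le_of_card_ge h2.le h)
        lia
    have hT'mem : ∀ y : H, y ∈ (T' : Subgroup H) ↔ (y : G) ∈ T := by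
      intro y
      rw [hT', mem_subgroupOf]
      exact ⟨fun h => ⟨h, y.2⟩, fun h => h.1⟩
    have hN' : ∀ y : H, y ∈ normalizer ((T' : Subgroup H) : Set H) →
        (y : G) ∈ normalizer (T : Set G) := by
      intro y hy
      apply mem_normalizer_of_conj_le
      intro s hs
      have h1 := (mem_normalizer_iff.1 hy ⟨s, hs.2⟩).1 ((hT'mem _).2 hs)
      exact (hT'mem _).1 h1
    have hHnil : PNilp p H := by
      apply ih _ hcard H rfl T'
      · intro g hg hgp x hx
        apply Subtype.ext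
        exact hTC g (hN' g hg) (by rwa [Subgroup.orderOf_coe]) x ((hT'mem x).1 hx)
      · intro x hx y hy1 hy2 hy3 hy4
        have hxP : (x : G) ∉ normalizer ((P : Subgroup G) : Set G) := by
          intro h
          apply hx
          apply mem_normalizer_of_conj_le
          intro s hs
          rw [hT'mem] at hs ⊢
          exact ⟨(mem_normalizer_iff.1 h s).1 hs.1, (x * s * x⁻¹ : H).2⟩
        rcases hcond x hxP y (resN_coe hy1) ((hT'mem y).1 hy2).1 ((hT'mem _).1 hy3).1
          (by rwa [Subgroup.orderOf_coe]) with h | ⟨B, hB1, hB2, hB3⟩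
        · left
          intro z hz
          exact Subtype.ext (h z ((hT'mem z).1 hz).1)
        · right
          refine ⟨B.subgroupOf H, ?_, hB2, ?_⟩
          · rw [hT']
            intro z hz
            exact hB1 hz
          · intro z hz
            obtain ⟨k, hk⟩ := hB3 z ((hT'mem z).1 hz).1
            exact ⟨k, hk⟩
    obtain ⟨g, hg, hgp, x, hx, hne⟩ := hU3
    have hUH : IsPGroup p (U.subgroupOf H) := hUp.comap_subtype
    have h1 := hHnil.comm hUH (g := ⟨g, hg⟩) (by
      apply mem_normalizer_of_conj_le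
      intro s hs
      exact (mem_normalizer_iff.1 hg s).1 hs) (by rwa [← Subgroup.orderOf_coe])
      (x := ⟨x, le_normalizer hx⟩) hx
    exact hne (congrArg Subtype.val h1)

end Pool.Agent.R691.PN
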