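import Mathlib
import Pool.Agent.R691.PN.ThmA

set_option autoImplicit false
set_option linter.unusedSectionVars false

/-! # `p`-supersolvable groups and residuals -/

namespace Pool.Agent.R691.PN

open Subgroup Pool.Agent.H302R2

/-- `L/K` is a chief factor of `G` -/
def IsChief {G : Type*} [Group G] (K L : Subgroup G) : Prop :=
  K.Normal ∧ L.Normal ∧ K < L ∧ ∀ M : Subgroup G, M.Normal → K ≤ M → M ≤ L → M = K ∨ M = L

/-- each chief factor is a `p`-group or a `p'`-group -/
def PSolv (p : ℕ) (G : Type*) [Group G] : Prop :=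
  ∀ K L : Subgroup G, IsChief K L → (∃ k : ℕ, K.relIndex L = p ^ k) ∨ ¬ p ∣ K.relIndex L

/-- `p`-solvable, and each chief factor that is a `p`-group has order `p` -/
def PSup (p : ℕ) (G : Type*) [Group G] : Prop :=
  PSolv p G ∧ ∀ K L : Subgroup G, IsChief K L → (∃ k : ℕ, K.relIndex L = p ^ k) →
    K.relIndex L = p

section
variable {p : ℕ} [hp : Fact p.Prime] {G : Type*} [Group G] [Finite G]

/-- relative form of `PNilp p (G ⧸ N)` -/
lemma pnilp_quot_iff (N : Subgroup G) [hN : N.Normal] : PNilp p (G ⧸ N) ↔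
    ∃ M : Subgroup G, M.Normal ∧ N ≤ M ∧ ¬ p ∣ N.relIndex M ∧ ∃ k : ℕ, M.index = p ^ k := by
  set f := QuotientGroup.mk' N with hf
  have hfs : Function.Surjective f := QuotientGroup.mk'_surjective N
  have hker : f.ker = N := QuotientGroup.ker_mk' N
  have hcomap : (⊥ : Subgroup (G ⧸ N)).comap f = N := hker
  constructor
  · rintro ⟨W, hW, hc, k, hk⟩
    refine ⟨W.comap f, inferInstance, ?_, ?_, k, ?_⟩
    · exact hker.ge.trans (MonoidHom.ker_le_comap _ _)
    · have h1 := relIndex_comap (⊥ : Subgroup (G ⧸ N)) f (W.comap f)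
      rw [hcomap, map_comap_eq_self_of_surjective hfs, relIndex_bot_left] at h1
      rwa [h1]
    · rw [index_comap_of_surjective _ hfs, hk]
  · rintro ⟨M, hM, hNM, hc, k, hk⟩
    refine ⟨M.map f, hM.map _ hfs, ?_, k, ?_⟩
    · have h1 := relIndex_comap (⊥ : Subgroup (G ⧸ N)) f M
      rw [hcomap, relIndex_bot_left] at h1
      rwa [← h1]
    · rw [index_map, MonoidHom.range_eq_top.2 hfs, index_top, mul_one, hker,
        sup_eq_left.2 hNM, hk]

/-- central extensions of `p`-nilpotent groups by `p`-groups -/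
lemma pnilp_of_central (M : Subgroup G) [hM : M.Normal] (hMc : M ≤ center G)
    (hMp : IsPGroup p M) (h : PNilp p (G ⧸ M)) : PNilp p G := by
  apply pnilp_of_frob _ G rfl
  intro Q hQ g hg hgp x hx
  have h1 : (g : G ⧸ M) * x = x * g := by
    apply h.comm (hQ.map (QuotientGroup.mk' M)) _ _ ⟨x, hx, rfl⟩
    · apply mem_normalizer_of_conj_le
      rintro _ ⟨y, hy, rfl⟩
      exact ⟨g * y * g⁻¹, (mem_normalizer_iff.1 hg y).1 hy, rfl⟩
    · intro hd
      exact hgp (hd.trans (orderOf_map_dvd (QuotientGroup.mk' M) g))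
  set c := x⁻¹ * g * x * g⁻¹ with hc
  have hcM : c ∈ M := by
    rw [← QuotientGroup.eq_one_iff, hc, QuotientGroup.mk_mul, QuotientGroup.mk_mul,
      QuotientGroup.mk_mul, QuotientGroup.mk_inv, QuotientGroup.mk_inv,
      mul_assoc (((x : G ⧸ M))⁻¹), h1]
    group
  have hcomm : Commute c g := ((mem_center_iff.1 (hMc hcM)) g).symm
  have h2 : x⁻¹ * g * x⁻¹⁻¹ = c * g := by rw [hc]; group
  have h3 : c ^ orderOf g = 1 := by
    have h3 : (x⁻¹ * g * x⁻¹⁻¹) ^ orderOf g = 1 := by
      rw [conj_pow, pow_orderOf_eq_one, mul_one, mul_inv_cancel]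
    rw [h2, hcomm.mul_pow, pow_orderOf_eq_one, mul_one] at h3
    exact h3
  obtain ⟨e, he⟩ := hMp ⟨c, hcM⟩
  have he' : c ^ p ^ e = 1 := congrArg Subtype.val he
  have h4 : c = 1 := eq_one_of_both he' h3 hgp
  rw [h4, inv_inv, one_mul] at h2
  have h5 : x * (x⁻¹ * g * x) = x * g := by rw [h2]
  rw [← h5]; group

/-- a `p`-element normalizing a Sylow subgroup lies in it -/
lemma mem_sylow_of_normalizer (P : Sylow p G) {y : G}
    (hy : y ∈ normalizer ((P : Subgroup G) : Set G)) {e : ℕ} (he : y ^ p ^ e = 1) : y ∈ P := by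
  have hz : IsPGroup p (zpowers y) := by
    intro z
    obtain ⟨z, i, rfl⟩ := z
    refine ⟨e, Subtype.ext ?_⟩
    simp only [coe_pow, coe_one]
    rw [← zpow_natCast, ← zpow_mul, mul_comm, zpow_mul, zpow_natCast, he, one_zpow]
  have hsup : IsPGroup p (zpowers y ⊔ (P : Subgroup G) : Subgroup G) :=
    hz.to_sup_of_normal_right' P.isPGroup' (by rw [zpowers_le]; exact hy)
  have h5 := P.is_maximal' hsup le_sup_right
  have h6 : y ∈ zpowers y ⊔ (P : Subgroup G) := mem_sup_left (mem_zpowers _)
  rw [h5] at h6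
  exact h6

/-- A Sylow subgroup fixes a nontrivial element of a nontrivial normal `p`-subgroup. -/
lemma exists_fixed (P : Sylow p G) {M : Subgroup G} (hM : M.Normal) (hMp : p ∣ Nat.card M) :
    ∃ b ∈ M, b ≠ 1 ∧ ∀ s ∈ P, s * b = b * s := by
  let act : MulDistribMulAction P M := MulDistribMulAction.compHom M
    ((MulAut.conjNormal (H := M)).comp (P : Subgroup G).subtype)
  obtain ⟨b, hb1, hb2⟩ := P.isPGroup'.exists_fixed_point_of_prime_dvd_card_of_fixed_point M hMp
    (a := 1) (fun s => smul_one s)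
  refine ⟨b, b.2, fun h => hb2 (Subtype.ext h.symm), fun s hs => ?_⟩
  have h1 : MulAut.conjNormal s b = b := hb1 ⟨s, hs⟩
  have h2 := congrArg Subtype.val h1
  rw [MulAut.conjNormal_apply] at h2
  exact mul_inv_eq_iff_eq_mul.1 h2

/-- normal subgroups of order `p` are central under the hypothesis on the Sylow normalizer -/
lemma central_of_card {Y : Type*} [Group Y] [Finite Y] (f : G →* Y)
    (hf : Function.Surjective f) (P : Sylow p G)
    (hC : ∀ g ∈ normalizer ((P : Subgroup G) : Set G), ¬ p ∣ orderOf g → ∀ x ∈ P, g * x = x * g)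
    (M : Subgroup Y) (hM : M.Normal) (hcard : Nat.card M = p) : M ≤ center Y := by
  set P' : Sylow p Y := P.mapSurjective hf with hP'
  have hMp : IsPGroup p M := IsPGroup.of_card (n := 1) (by rw [hcard, pow_one])
  have hMP : M ≤ P' := normal_le_sylow P' hM hMp
  obtain ⟨b, hbM, hb1, hb⟩ := exists_fixed P' hM (by rw [hcard])
  have hMz : ∀ m ∈ M, m ∈ zpowers b := by
    have h1 : zpowers b ≤ M := by rw [zpowers_le]; exact hbM
    have h2 : Nat.card (zpowers b) = p := by
      have h3 : Nat.card (zpowers b) ∣ p := by rw [← hcard]; exact card_dvd_of_le h1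
      rcases (Nat.dvd_prime hp.out).1 h3 with h | h
      · exfalso
        apply hb1
        rw [Nat.card_zpowers, orderOf_eq_one_iff] at h
        exact h
      · exact h
    have h3 := eq_of_le_of_card_ge h1 (by rw [hcard, h2])
    intro m hm
    rw [h3]; exact hm
  have hPM : ∀ s ∈ P', ∀ m ∈ M, s * m = m * s := by
    intro s hs m hm
    obtain ⟨i, rfl⟩ := mem_zpowers_iff.1 (hMz m hm)
    have h1 : Commute s b := hb s hs
    exact (h1.zpow_right i).eq
  have hCn : (centralizer (M : Set Y)).Normal := inferInstance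
  have hPC : (P' : Subgroup Y) ≤ centralizer (M : Set Y) := by
    intro s hs
    rw [mem_centralizer_iff]
    intro m hm
    exact (hPM s hs m hm).symm
  have hNC : normalizer ((P' : Subgroup Y) : Set Y) ≤ centralizer (M : Set Y) := by
    intro y hy
    obtain ⟨s, hs, x, hx, rfl⟩ := normalizer_image f hf P hy
    apply mul_mem
    · exact hPC ⟨s, hs, rfl⟩
    · obtain ⟨k, l, h1, ⟨e, he⟩, h3⟩ := decomp p x
      have h4 : x ^ k ∈ P := mem_sylow_of_normalizer P (pow_mem hx _) he
      rw [← h1, map_mul]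
      apply mul_mem
      · exact hPC ⟨x ^ k, h4, rfl⟩
      · rw [mem_centralizer_iff]
        intro m hm
        obtain ⟨s, hs, rfl⟩ := hMP hm
        rw [← map_mul, ← map_mul, hC _ (pow_mem hx _) h3 s hs]
  have htop := Sylow.normalizer_sup_eq_top' P' hPC
  have h1 : centralizer (M : Set Y) = ⊤ := by
    rw [eq_top_iff, ← htop]
    exact sup_le hNC le_rfl
  intro m hm
  rw [mem_center_iff]
  intro g
  have : g ∈ centralizer (M : Set Y) := by rw [h1]; exact mem_top _
  exact ((mem_centralizer_iff.1 this) m hm).symm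

omit [Finite G] hp in
lemma IsChief.map {N K L : Subgroup G} [hN : N.Normal] (hNK : N ≤ K) (h : IsChief K L) :
    IsChief (K.map (QuotientGroup.mk' N)) (L.map (QuotientGroup.mk' N)) := by
  obtain ⟨hK, hL, hKL, hmax⟩ := h
  set f := QuotientGroup.mk' N with hf
  have hfs : Function.Surjective f := QuotientGroup.mk'_surjective N
  have hker : f.ker = N := QuotientGroup.ker_mk' N
  have hcm : ∀ A : Subgroup G, N ≤ A → (A.map f).comap f = A := by
    intro A hA
    rw [comap_map_eq, hker, sup_eq_left.2 hA]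
  refine ⟨hK.map _ hfs, hL.map _ hfs, ?_, ?_⟩
  · rw [lt_iff_le_not_ge]
    refine ⟨map_mono hKL.le, fun h => ?_⟩
    have h1 := comap_mono (f := f) h
    rw [hcm _ hNK, hcm _ (hNK.trans hKL.le)] at h1
    exact absurd h1 hKL.not_ge
  · intro M hM h1 h2
    have e1 := comap_mono (f := f) h1
    have e2 := comap_mono (f := f) h2
    rw [hcm _ hNK] at e1
    rw [hcm _ (hNK.trans hKL.le)] at e2
    rcases hmax (M.comap f) inferInstance e1 e2 with h | h
    · left; rw [← h, map_comap_eq_self_of_surjective hfs]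
    · right; rw [← h, map_comap_eq_self_of_surjective hfs]

omit [Finite G] hp in
lemma relIndex_map_mk {N K L : Subgroup G} [hN : N.Normal] (hNK : N ≤ K) :
    (K.map (QuotientGroup.mk' N)).relIndex (L.map (QuotientGroup.mk' N)) = K.relIndex L := by
  rw [← relIndex_comap, comap_map_eq, QuotientGroup.ker_mk', sup_eq_left.2 hNK]

/-- If `N_G(P)` is `p`-nilpotent and `G/N` is `p`-supersolvable, then `G/N` is `p`-nilpotent. -/
theorem pnilp_of_psup (P : Sylow p G)
    (hC : ∀ g ∈ normalizer ((P : Subgroup G) : Set G), ¬ p ∣ orderOf g → ∀ x ∈ P, g * x = x * g)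
    (N : Subgroup G) [hN : N.Normal] (hss : PSup p (G ⧸ N)) : PNilp p (G ⧸ N) := by
  obtain ⟨L, ⟨hL1, hL2, hL3⟩, hLmin⟩ := Set.exists_min_image
    {L : Subgroup G | N ≤ L ∧ ∃ _ : L.Normal, PNilp p (G ⧸ L)} (fun L => Nat.card L)
    (Set.toFinite _) ⟨⊤, le_top, inferInstance, by
      rw [pnilp_quot_iff]
      refine ⟨⊤, inferInstance, le_top, ?_, 0, by simp⟩
      rw [relIndex_self]
      exact hp.out.one_lt.ne' ∘ Nat.dvd_one.1⟩
  by_cases hLN : L = N
  · subst hLN; exact hL3
  exfalso
  have hlt : N < L := lt_of_le_of_ne hL1 (Ne.symm hLN)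
  obtain ⟨K, ⟨hK1, hK2, hK3⟩, hKmax⟩ := Set.exists_max_image
    {K : Subgroup G | N ≤ K ∧ K < L ∧ K.Normal} (fun K => Nat.card K)
    (Set.toFinite _) ⟨N, le_rfl, hlt, hN⟩
  have hchief : IsChief K L := by
    refine ⟨hK3, hL2, hK2, fun M hM h1 h2 => ?_⟩
    by_cases hML : M = L
    · right; exact hML
    · left
      have h3 := hKmax M ⟨hK1.trans h1, lt_of_le_of_ne h2 hML, hM⟩
      exact (eq_of_le_of_card_ge h1 h3).symm
  have hKp : PNilp p (G ⧸ K) := by
    have hch2 := hchief.map hK1
    rcases hss.1 _ _ hch2 with h | h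
    · have h1 := hss.2 _ _ hch2 h
      rw [relIndex_map_mk hK1] at h1
      set M : Subgroup (G ⧸ K) := L.map (QuotientGroup.mk' K) with hM
      have hMn : M.Normal := hL2.map _ (QuotientGroup.mk'_surjective K)
      have hMc : Nat.card M = p := by
        have h2 := relIndex_map_mk (N := K) (K := K) (L := L) le_rfl
        rw [h1, QuotientGroup.map_mk'_self, relIndex_bot_left] at h2
        exact h2
      have hMcen := central_of_card (QuotientGroup.mk' K) (QuotientGroup.mk'_surjective K) P hC
        M hMn hMc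
      apply pnilp_of_central M hMcen (IsPGroup.of_card (n := 1) (by rw [hMc, pow_one]))
      exact hL3.of_injective
        (QuotientGroup.quotientQuotientEquivQuotient K L hK2.le).toMonoidHom
        (QuotientGroup.quotientQuotientEquivQuotient K L hK2.le).injective
    · rw [relIndex_map_mk hK1] at h
      rw [pnilp_quot_iff] at hL3 ⊢
      obtain ⟨M, hM1, hM2, hM3, hM4⟩ := hL3
      refine ⟨M, hM1, hK2.le.trans hM2, ?_, hM4⟩
      rw [← relIndex_mul_relIndex K L M hK2.le hM2]
      intro hd
      rcases hp.out.dvd_mul.1 hd with h' | h'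
      · exact h h'
      · exact hM3 h'
  have h3 := hLmin K ⟨hK1, hK3, hKp⟩
  exact hK2.ne (eq_of_le_of_card_ge hK2.le h3)

/-- `p`-nilpotent groups are `p`-supersolvable -/
theorem psup_of_pnilp (h : PNilp p G) : PSup p G := by
  have key : ∀ K L : Subgroup G, IsChief K L → K.relIndex L = p ∨ ¬ p ∣ K.relIndex L := by
    rintro K L ⟨hK, hL, hKL, hmax⟩
    obtain ⟨N, hN, hNc, k, hk⟩ := id h
    by_cases hd : p ∣ K.relIndex L
    swap
    · right; exact hd
    left
    have hLN : L ⊓ N ≤ K := by
      rcases hmax (K ⊔ (L ⊓ N)) inferInstance le_sup_left (sup_le hKL.le inf_le_left) with h1 | h1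
      · exact sup_eq_left.1 h1
      · exfalso
        rw [← h1, relIndex_sup_left] at hd
        exact hNc ((hd.trans (relIndex_dvd_card _ _)).trans (card_dvd_of_le inf_le_right))
    -- pass to the quotient
    have hYn : PNilp p (G ⧸ K) := by
      rw [pnilp_quot_iff]
      refine ⟨K ⊔ N, inferInstance, le_sup_left, ?_, ?_⟩
      · rw [relIndex_sup_left]
        intro h1
        exact hNc (h1.trans (relIndex_dvd_card _ _))
      · have h1 : (K ⊔ N).index ∣ p ^ k := by rw [← hk]; exact index_dvd_of_le le_sup_right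
        obtain ⟨j, -, hj⟩ := (Nat.dvd_prime_pow hp.out).1 h1
        exact ⟨j, hj⟩
    set M : Subgroup (G ⧸ K) := L.map (QuotientGroup.mk' K) with hM
    have hMn : M.Normal := hL.map _ (QuotientGroup.mk'_surjective K)
    have hMc : Nat.card M = K.relIndex L := by
      have h2 := relIndex_map_mk (N := K) (K := K) (L := L) le_rfl
      rw [QuotientGroup.map_mk'_self, relIndex_bot_left] at h2
      exact h2
    have hMp : IsPGroup p M := by
      have h1 : K.relIndex L ∣ p ^ k := by
        have h2 : K.relIndex L ∣ (L ⊓ N).relIndex L := relIndex_dvd_of_le_left _ hLN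
        rw [inf_comm, inf_relIndex_right] at h2
        have h3 : N.relIndex L ∣ N.index := relIndex_dvd_index_of_normal _ _
        rw [hk] at h3
        exact h2.trans h3
      obtain ⟨j, -, hj⟩ := (Nat.dvd_prime_pow hp.out).1 h1
      exact IsPGroup.of_card (hMc.trans hj)
    obtain ⟨P⟩ : Nonempty (Sylow p (G ⧸ K)) := inferInstance
    obtain ⟨b, hbM, hb1, hb⟩ := exists_fixed P hMn (by rw [hMc]; exact hd)
    have hbz : b ∈ center (G ⧸ K) := by
      have h1 : centralizer ({b} : Set (G ⧸ K)) = ⊤ := by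
        apply eq_top_of_sylow_le P
        · intro s hs
          rw [mem_centralizer_singleton_iff]
          exact hb s hs
        · intro g hg
          rw [mem_centralizer_singleton_iff]
          exact hYn.comm hMp (by rw [normalizer_eq_top_iff.2 hMn]; exact mem_top _) hg hbM
      rw [mem_center_iff]
      intro g
      have : g ∈ centralizer ({b} : Set (G ⧸ K)) := by rw [h1]; exact mem_top _
      rwa [mem_centralizer_singleton_iff] at this
    obtain ⟨c, hc⟩ : ∃ c : zpowers b, orderOf c = p := by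
      apply exists_prime_orderOf_dvd_card' p
      rw [Nat.card_zpowers]
      obtain ⟨e, he⟩ := hMp ⟨b, hbM⟩
      have he' : b ^ p ^ e = 1 := congrArg Subtype.val he
      have h1 : orderOf b ∣ p ^ e := orderOf_dvd_of_pow_eq_one he'
      obtain ⟨j, -, hj⟩ := (Nat.dvd_prime_pow hp.out).1 h1
      rw [hj]
      apply dvd_pow_self
      rintro rfl
      rw [pow_zero, orderOf_eq_one_iff] at hj
      exact hb1 hj
    have hcz : (c : G ⧸ K) ∈ center (G ⧸ K) := by
      have h1 : zpowers b ≤ center (G ⧸ K) := by rw [zpowers_le]; exact hbz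
      exact h1 c.2
    have hcM : (c : G ⧸ K) ∈ M := by
      have h1 : zpowers b ≤ M := by rw [zpowers_le]; exact hbM
      exact h1 c.2
    have hcn : (zpowers (c : G ⧸ K)).Normal := by
      constructor
      intro n hn g
      obtain ⟨i, rfl⟩ := mem_zpowers_iff.1 hn
      have h1 : Commute g (c : G ⧸ K) := (mem_center_iff.1 hcz g)
      rw [(h1.zpow_right i).eq, mul_inv_cancel_right]
      exact hn
    set f := QuotientGroup.mk' K with hf
    have hfs : Function.Surjective f := QuotientGroup.mk'_surjective K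
    have hker : f.ker = K := QuotientGroup.ker_mk' K
    have hle : (zpowers (c : G ⧸ K)).comap f ≤ L := by
      have h1 : zpowers (c : G ⧸ K) ≤ M := by rw [zpowers_le]; exact hcM
      have h2 := comap_mono (f := f) h1
      rw [hM, comap_map_eq, hker, sup_eq_left.2 hKL.le] at h2
      exact h2
    have hco : orderOf (c : G ⧸ K) = p := by rw [Subgroup.orderOf_coe, hc]
    rcases hmax ((zpowers (c : G ⧸ K)).comap f) inferInstance
      (hker.ge.trans (MonoidHom.ker_le_comap _ _)) hle with h1 | h1
    · exfalso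
      have h2 : zpowers (c : G ⧸ K) = ⊥ := by
        rw [← map_comap_eq_self_of_surjective hfs (zpowers (c : G ⧸ K)), h1, hf,
          QuotientGroup.map_mk'_self]
      rw [zpowers_eq_bot] at h2
      rw [h2, orderOf_one] at hco
      exact hp.out.one_lt.ne hco
    · have h2 : M = zpowers (c : G ⧸ K) := by
        rw [← map_comap_eq_self_of_surjective hfs (zpowers (c : G ⧸ K)), h1]
      rw [← hMc, h2, Nat.card_zpowers, hco]
  constructor
  · intro K L hKL
    rcases key K L hKL with h1 | h1
    · left; exact ⟨1, by rw [h1, pow_one]⟩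
    · right; exact h1
  · intro K L hKL hk
    rcases key K L hKL with h1 | h1
    · exact h1
    · exfalso
      obtain ⟨k, hk⟩ := hk
      apply h1
      rw [hk]
      apply dvd_pow_self
      rintro rfl
      rw [pow_zero] at hk
      have h2 : L ≤ K := relIndex_eq_one.1 hk
      exact hKL.2.2.1.not_ge h2

end

end Pool.Agent.R691.PN
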