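import Mathlib
import Pool.Agent.R691.PN.Resid

set_option autoImplicit false
set_option linter.unusedSectionVars false

/-! # The `p`-supersolvable residual is the smallest normal subgroup with `p`-supersolvable
quotient -/

namespace Pool.Agent.R691.PN

open Subgroup

section
variable {p : ℕ} [hp : Fact p.Prime] {G : Type*} [Group G] [Finite G]

omit hp [Finite G] in
lemma modular_law {A N C : Subgroup G} [hN : N.Normal] (hAC : A ≤ C) :
    (A ⊔ N) ⊓ C = A ⊔ (N ⊓ C) := by
  apply le_antisymm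
  · rintro x ⟨hx1, hx2⟩
    have hx3 : x ∈ A ⊔ N := hx1
    rw [mem_sup_of_normal_right] at hx3
    obtain ⟨a, ha, n, hn, rfl⟩ := hx3
    have h1 : n ∈ C := by
      have := mul_mem (inv_mem (hAC ha)) hx2
      rwa [inv_mul_cancel_left] at this
    exact mul_mem (mem_sup_left ha) (mem_sup_right ⟨hn, h1⟩)
  · exact sup_le (le_inf le_sup_left hAC) (inf_le_inf_right _ le_sup_right)

/-- relative form of `p`-supersolvability of `G ⧸ N` -/
lemma psup_quot_iff (N : Subgroup G) [hN : N.Normal] : PSup p (G ⧸ N) ↔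
    ∀ K L : Subgroup G, N ≤ K → IsChief K L → K.relIndex L = p ∨ ¬ p ∣ K.relIndex L := by
  constructor
  · intro h K L hNK hKL
    have h1 := hKL.map hNK
    rw [← relIndex_map_mk hNK]
    rcases h.1 _ _ h1 with h2 | h2
    · left; exact h.2 _ _ h1 h2
    · right; exact h2
  · intro h
    have key : ∀ K L : Subgroup (G ⧸ N), IsChief K L →
        K.relIndex L = p ∨ ¬ p ∣ K.relIndex L := by
      rintro K L ⟨hK, hL, hKL, hmax⟩
      have hfs : Function.Surjective (QuotientGroup.mk' N) := QuotientGroup.mk'_surjective N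
      have hker : (QuotientGroup.mk' N).ker = N := QuotientGroup.ker_mk' N
      have hNK : N ≤ K.comap (QuotientGroup.mk' N) :=
        hker.ge.trans (MonoidHom.ker_le_comap _ _)
      have h1 : (K.comap (QuotientGroup.mk' N)).relIndex (L.comap (QuotientGroup.mk' N))
          = K.relIndex L := by
        rw [relIndex_comap, map_comap_eq_self_of_surjective hfs]
      rw [← h1]
      apply h _ _ hNK
      refine ⟨inferInstance, inferInstance, ?_, ?_⟩
      · rw [lt_iff_le_not_ge]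
        refine ⟨comap_mono hKL.le, fun h => ?_⟩
        have h2 := map_mono (f := QuotientGroup.mk' N) h
        rw [map_comap_eq_self_of_surjective hfs, map_comap_eq_self_of_surjective hfs] at h2
        exact hKL.not_ge h2
      · intro M hM h1 h2
        have e1 := map_mono (f := QuotientGroup.mk' N) h1
        have e2 := map_mono (f := QuotientGroup.mk' N) h2
        rw [map_comap_eq_self_of_surjective hfs] at e1 e2
        have e3 : (M.map (QuotientGroup.mk' N)).comap (QuotientGroup.mk' N) = M := by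
          rw [comap_map_eq, hker, sup_eq_left.2 (hNK.trans h1)]
        rcases hmax _ (hM.map _ hfs) e1 e2 with h | h
        · left; rw [← h, e3]
        · right; rw [← h, e3]
    constructor
    · intro K L hKL
      rcases key K L hKL with h1 | h1
      · left; exact ⟨1, by rw [h1, pow_one]⟩
      · right; exact h1
    · intro K L hKL hk
      rcases key K L hKL with h1 | h1
      · exact h1
      · exfalso
        obtain ⟨k, hk⟩ := hk
        apply h1
        rw [hk]
        apply dvd_pow_self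
        rintro rfl
        rw [pow_zero] at hk
        have h2 : L ≤ K := relIndex_eq_one.1 hk
        exact hKL.2.2.1.not_ge h2

omit hp [Finite G] in
lemma chief_one {K L N : Subgroup G} (hN : N.Normal) (h : IsChief K L) (hLN : L ⊓ N ≤ K) :
    IsChief (K ⊔ N) (L ⊔ N) ∧ (K ⊔ N).relIndex (L ⊔ N) = K.relIndex L := by
  obtain ⟨hK, hL, hKL, hmax⟩ := h
  have h1 : (K ⊔ N).relIndex (L ⊔ N) = K.relIndex L := by
    have e1 : L ⊔ N = L ⊔ (K ⊔ N) := by
      rw [← sup_assoc, sup_eq_left.2 hKL.le]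
    rw [e1, relIndex_sup_right, ← inf_relIndex_right, modular_law hKL.le, inf_comm N L,
      sup_eq_left.2 hLN]
  refine ⟨⟨inferInstance, inferInstance, ?_, ?_⟩, h1⟩
  · apply lt_of_le_of_ne (sup_le_sup_right hKL.le _)
    intro h2
    rw [h2, relIndex_self] at h1
    exact hKL.not_ge (relIndex_eq_one.1 h1.symm)
  · intro M hM h2 h3
    have e1 : M = (M ⊓ L) ⊔ N := by
      have e2 : (N ⊔ L) ⊓ M = N ⊔ (L ⊓ M) := modular_law (le_sup_right.trans h2)
      rw [sup_comm N L, inf_eq_right.2 h3, inf_comm, sup_comm] at e2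
      exact e2
    have h4 : K ≤ M ⊓ L := le_inf (le_sup_left.trans h2) hKL.le
    rcases hmax (M ⊓ L) inferInstance h4 inf_le_right with h | h
    · left; rw [h] at e1; exact e1
    · right; rw [h] at e1; exact e1

omit hp [Finite G] in
lemma chief_two {K L N₁ N₂ : Subgroup G} (hN1 : N₁.Normal) (hN2 : N₂.Normal)
    (h : IsChief K L) (hK0 : N₁ ⊓ N₂ ≤ K) (hKL1 : K ⊔ (L ⊓ N₁) = L) :
    IsChief ((K ⊓ N₁) ⊔ N₂) ((L ⊓ N₁) ⊔ N₂) ∧
      ((K ⊓ N₁) ⊔ N₂).relIndex ((L ⊓ N₁) ⊔ N₂) = K.relIndex L := by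
  obtain ⟨hK, hL, hKL, hmax⟩ := h
  have hle : K ⊓ N₁ ≤ L ⊓ N₁ := inf_le_inf_right _ hKL.le
  have h1 : ((K ⊓ N₁) ⊔ N₂).relIndex ((L ⊓ N₁) ⊔ N₂) = K.relIndex L := by
    have e1 : (L ⊓ N₁) ⊔ N₂ = (L ⊓ N₁) ⊔ ((K ⊓ N₁) ⊔ N₂) := by
      rw [← sup_assoc, sup_eq_left.2 hle]
    have e2 : N₂ ⊓ (L ⊓ N₁) ≤ K ⊓ N₁ := by
      apply le_inf
      · exact (le_inf (inf_le_right.trans inf_le_right) inf_le_left).trans hK0
      · exact inf_le_right.trans inf_le_right
    have e3 : K ⊓ N₁ = K ⊓ (L ⊓ N₁) := by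
      rw [← inf_assoc, inf_eq_left.2 hKL.le]
    rw [e1, relIndex_sup_right, ← inf_relIndex_right, modular_law hle, sup_eq_left.2 e2, e3,
      inf_relIndex_right]
    conv_rhs => rw [← hKL1]
    rw [relIndex_sup_left]
  refine ⟨⟨inferInstance, inferInstance, ?_, ?_⟩, h1⟩
  · apply lt_of_le_of_ne (sup_le_sup_right hle _)
    intro h2
    rw [h2, relIndex_self] at h1
    exact hKL.not_ge (relIndex_eq_one.1 h1.symm)
  · intro M hM h2 h3
    have e1 : M = (M ⊓ (L ⊓ N₁)) ⊔ N₂ := by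
      have e2 : (N₂ ⊔ (L ⊓ N₁)) ⊓ M = N₂ ⊔ ((L ⊓ N₁) ⊓ M) :=
        modular_law (le_sup_right.trans h2)
      rw [sup_comm N₂ (L ⊓ N₁), inf_eq_right.2 h3, inf_comm (L ⊓ N₁) M, sup_comm] at e2
      exact e2
    have hM1 : K ⊔ (M ⊓ (L ⊓ N₁)) ≤ L := sup_le hKL.le (inf_le_right.trans inf_le_left)
    rcases hmax (K ⊔ (M ⊓ (L ⊓ N₁))) inferInstance le_sup_left hM1 with h | h
    · left
      apply le_antisymm _ h2
      rw [e1]
      apply sup_le_sup_right
      exact le_inf (sup_eq_left.1 h) (inf_le_right.trans inf_le_right)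
    · right
      apply le_antisymm h3
      apply sup_le _ (le_sup_right.trans h2)
      have e2 : (M ⊓ (L ⊓ N₁) ⊔ K) ⊓ (L ⊓ N₁) = M ⊓ (L ⊓ N₁) ⊔ (K ⊓ (L ⊓ N₁)) :=
        modular_law inf_le_right
      rw [sup_comm _ K, h] at e2
      have e3 : L ⊓ N₁ = L ⊓ (L ⊓ N₁) := by rw [← inf_assoc, inf_idem]
      rw [e3, e2]
      apply sup_le inf_le_left
      exact (le_inf inf_le_left (inf_le_right.trans inf_le_right)).trans (le_sup_left.trans h2)

lemma psup_inf {N₁ N₂ : Subgroup G} [hN1 : N₁.Normal] [hN2 : N₂.Normal]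
    (h1 : PSup p (G ⧸ N₁)) (h2 : PSup p (G ⧸ N₂)) : PSup p (G ⧸ (N₁ ⊓ N₂)) := by
  rw [psup_quot_iff] at h1 h2 ⊢
  intro K L hNK hKL
  have hK := hKL.1
  have hL := hKL.2.1
  rcases hKL.2.2.2 (K ⊔ (L ⊓ N₁)) inferInstance le_sup_left
    (sup_le hKL.2.2.1.le inf_le_left) with h | h
  · obtain ⟨e1, e2⟩ := chief_one hN1 hKL (sup_eq_left.1 h)
    rw [← e2]
    exact h1 _ _ le_sup_right e1
  · obtain ⟨e1, e2⟩ := chief_two hN1 hN2 hKL hNK h
    rw [← e2]
    exact h2 _ _ le_sup_right e1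

/-- The residual is the least normal subgroup with `p`-supersolvable quotient. -/
theorem isLeast_residual : IsLeast {N : Subgroup G | ∃ _ : N.Normal, PSup p (G ⧸ N)}
    (sInf {N : Subgroup G | ∃ _ : N.Normal, PSup p (G ⧸ N)}) := by
  obtain ⟨N, ⟨hN1, hN2⟩, hmin⟩ := Set.exists_min_image
    {N : Subgroup G | ∃ _ : N.Normal, PSup p (G ⧸ N)} (fun L => Nat.card L)
    (Set.toFinite _) ⟨⊤, inferInstance, by
      rw [psup_quot_iff]
      intro K L hK hKL
      exact absurd (hKL.2.2.1.trans_le (le_top.trans hK)) (lt_irrefl _)⟩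
  have hleast : IsLeast {N : Subgroup G | ∃ _ : N.Normal, PSup p (G ⧸ N)} N := by
    refine ⟨⟨hN1, hN2⟩, ?_⟩
    rintro M ⟨hM1, hM2⟩
    have h1 := hmin (N ⊓ M) ⟨inferInstance, psup_inf hN2 hM2⟩
    have h2 := eq_of_le_of_card_ge (inf_le_left : N ⊓ M ≤ N) h1
    exact inf_eq_left.1 h2
  rw [hleast.isGLB.sInf_eq]
  exact hleast

end

end Pool.Agent.R691.PN
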